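import Pool.Agent.P.MP_61d55c_co.SG.Iface

set_option autoImplicit false

namespace Pool.Agent.P.MP_61d55c_co.SG

open MeasureTheory Set
open scoped Classical

theorem core_small {w D : ℝ} (hD : 3 ≤ D) (hw : 0 < w) (h : w * (10 ^ 15 * D ^ 6) ≤ 1) :
    w * D ^ 3 ≤ 1 / 10 ^ 15 ∧ w * D ≤ 1 / 10 ^ 15 ∧ w ≤ 1 / 10 ^ 15 := by
  have d1 : 1 ≤ D := by linarith
  have a : ∀ m : ℕ, m ≤ 6 → w * D ^ m ≤ 1 / 10 ^ 15 := fun m hm => by
    have := mul_le_mul_of_nonneg_left (pow_le_pow_right₀ d1 hm) hw.le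
    rw [le_div_iff₀ (by positivity)]
    nlinarith
  exact ⟨a 3 (by norm_num), by simpa using a 1 (by norm_num), by simpa using a 0 (by norm_num)⟩

theorem core_n1 {w D t : ℝ} (hD : 3 ≤ D) (hw : 0 < w) (h : w * (10 ^ 15 * D ^ 6) ≤ 1)
    (ht : t ≤ w ^ 14) : t / (w ^ 8 / 8 * D) + w ^ 8 / 8 * D + w ^ 6 * D ≤ w ^ 5 := by
  obtain ⟨-, h2, h3⟩ := core_small hD hw h
  have d0 : 0 < D := by linarith
  have e1 : t / (w ^ 8 / 8 * D) ≤ w ^ 5 * (1 / 3) := by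
    rw [div_le_iff₀ (by positivity)]
    calc t ≤ w ^ 13 * w := by rw [← pow_succ]; exact ht
      _ ≤ w ^ 13 * (D / 24) := by gcongr; linarith
      _ = _ := by ring
  have e2 : w ^ 8 / 8 * D ≤ w ^ 5 * (1 / 3) := by
    have : w ^ 2 ≤ 1 := pow_le_one₀ hw.le (by linarith)
    calc w ^ 8 / 8 * D = w ^ 5 * (w ^ 2 * (w * D) / 8) := by ring
      _ ≤ w ^ 5 * (1 * 1 / 8) := by gcongr; linarith
      _ ≤ _ := mul_le_mul_of_nonneg_left (by norm_num) (by positivity)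
  have e3 : w ^ 6 * D ≤ w ^ 5 * (1 / 3) := by
    calc w ^ 6 * D = w ^ 5 * (w * D) := by ring
      _ ≤ _ := by gcongr; linarith
  linarith

theorem core_n2 {w D t b s m V : ℝ} (hD : 3 ≤ D) (hw : 0 < w) (h : w * (10 ^ 15 * D ^ 6) ≤ 1)
    (ht : t ≤ w ^ 14) (hb : b ≤ w ^ 4) (hs : s ≤ w ^ 5) (hm : 0 ≤ m) (hV : w ^ 3 ≤ V)
    (hP : m * V ≤ 2 * (t + b)
      + 8 / (1 / (10 ^ 7 * D ^ 3)) * (3 * s + 1728 * (3 * w ^ 2) ^ 2 * D ^ 2)) :
    m < 1 / (128 * D) := by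
  obtain ⟨-, -, h3⟩ := core_small hD hw h
  have d0 : 0 < D := by linarith
  have d1 : 1 ≤ D := by linarith
  have w1 : w ≤ 1 := by linarith
  have a1 : t ≤ w ^ 4 := ht.trans (pow_le_pow_of_le_one hw.le w1 (by norm_num))
  have a2 : s ≤ w ^ 4 * D ^ 2 := by
    calc s ≤ w ^ 5 := hs
      _ ≤ w ^ 4 := pow_le_pow_of_le_one hw.le w1 (by norm_num)
      _ ≤ _ := le_mul_of_one_le_right (by positivity) (one_le_pow₀ d1)
  have a3 : w ^ 4 ≤ w ^ 4 * D ^ 5 := le_mul_of_one_le_right (by positivity) (one_le_pow₀ d1)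
  have a4 : 8 / (1 / (10 ^ 7 * D ^ 3)) * (3 * s + 1728 * (3 * w ^ 2) ^ 2 * D ^ 2)
      ≤ 8 * 10 ^ 7 * 15555 * (w ^ 4 * D ^ 5) := by
    calc _ ≤ 8 / (1 / (10 ^ 7 * D ^ 3)) * (3 * (w ^ 4 * D ^ 2)
          + 1728 * (3 * w ^ 2) ^ 2 * D ^ 2) := by gcongr
      _ = _ := by field_simp; ring
  have a5 : m * w ^ 3 ≤ (2 * 10 ^ 12 * (w * D ^ 5)) * w ^ 3 := by
    have := mul_le_mul_of_nonneg_left hV hm
    have e : (2 * 10 ^ 12 * (w * D ^ 5)) * w ^ 3 = 2 * 10 ^ 12 * (w ^ 4 * D ^ 5) := by ring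
    have : 0 ≤ w ^ 4 * D ^ 5 := by positivity
    rw [e]
    linarith
  have a6 := le_of_mul_le_mul_right a5 (by positivity)
  rw [lt_div_iff₀ (by positivity)]
  have a7 : m * (128 * D) ≤ 2 * 10 ^ 12 * (w * D ^ 5) * (128 * D) := by gcongr
  have a8 : 2 * 10 ^ 12 * (w * D ^ 5) * (128 * D) = 256 / 1000 * (w * (10 ^ 15 * D ^ 6)) := by ring
  linarith

theorem core_mono {D : ℕ} (c : Cfg D) {p q : V D → Prop} (h : ∀ a ∈ c.A, p a → q a) :
    c.cnt p ≤ c.cnt q := by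
  unfold Cfg.cnt
  refine div_le_div_of_nonneg_right (Nat.cast_le.2 (Finset.card_le_card fun a ha => ?_))
    (by positivity)
  rw [Finset.mem_filter] at ha ⊢
  exact ⟨ha.1, h a ha.1 ha.2⟩

theorem core_or {D : ℕ} (c : Cfg D) {p q r : V D → Prop} (h : ∀ a ∈ c.A, p a → q a ∨ r a) :
    c.cnt p ≤ c.cnt q + c.cnt r := by
  unfold Cfg.cnt
  rw [← add_div, ← Nat.cast_add]
  refine div_le_div_of_nonneg_right (Nat.cast_le.2 (le_trans (Finset.card_le_card fun a ha => ?_)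
    (Finset.card_union_le _ _))) (by positivity)
  rw [Finset.mem_filter] at ha
  rw [Finset.mem_union, Finset.mem_filter, Finset.mem_filter]
  exact (h a ha.1 ha.2).imp (fun e => ⟨ha.1, e⟩) fun e => ⟨ha.1, e⟩

theorem core_ex {D : ℕ} (c : Cfg D) {p q r : V D → Prop} (h : c.cnt q < c.cnt p)
    (h2 : ∀ a ∈ c.A, p a → ¬ r a → q a) : ∃ a ∈ c.A, p a ∧ r a := by
  by_contra hn
  exact h.not_ge (core_mono c fun a ha hp => h2 a ha hp fun hr => hn ⟨a, ha, hp, hr⟩)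

theorem p_CORE (hL1 : S_L1) (hLR : S_LR) (hLI : S_LI) (hS2 : S_S2) (hPC : S_PC) (hS4 : S_S4) :
    S_CORE := by
  intro D c hD
  by_contra hth
  rw [not_lt] at hth
  have d3 : (3 : ℝ) ≤ D := by exact_mod_cast hD
  have d0 : (0 : ℝ) < D := by linarith
  have D1 : 1 ≤ D := by omega
  have big : (1 : ℝ) ≤ 10 ^ 15 * D ^ 6 :=
    one_le_mul_of_one_le_of_one_le (by norm_num) (one_le_pow₀ (by linarith))
  obtain ⟨j, j1, j2⟩ := exists_nat_pow_near big one_lt_two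
  obtain ⟨n, n1, n2⟩ := exists_nat_pow_near (show (1 : ℝ) ≤ 48 * D by linarith) one_lt_two
  obtain ⟨w, hwd⟩ : ∃ w : ℝ, w = 1 / 2 ^ (j + 1) := ⟨_, rfl⟩
  have hw : 0 < w := by rw [hwd]; positivity
  have h : w * (10 ^ 15 * D ^ 6) ≤ 1 := by
    rw [hwd, div_mul_eq_mul_div, one_mul, div_le_one (by positivity)]
    exact j2.le
  have ht : c.th ≤ w ^ 14 := by
    refine hth.trans (pow_le_pow_left₀ (by positivity) ?_ _)
    rw [hwd]
    refine one_div_le_one_div_of_le (by positivity) ?_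
    rw [pow_succ]
    linarith
  obtain ⟨s3, s1, s0⟩ := core_small d3 hw h
  have w1 : w ≤ 1 := by linarith
  have w2 : w ^ 2 ≤ w := by nlinarith
  have w4 : w ^ 4 ≤ w := by simpa using pow_le_pow_of_le_one hw.le w1 (show 1 ≤ 4 by norm_num)
  have w5 : w ^ 5 ≤ w := by simpa using pow_le_pow_of_le_one hw.le w1 (show 1 ≤ 5 by norm_num)
  have w14 : w ^ 14 ≤ w := by simpa using pow_le_pow_of_le_one hw.le w1 (show 1 ≤ 14 by norm_num)
  have x0 : 0 < w ^ 2 := by positivity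
  have x1 : w ^ 2 < 1 := by linarith
  have xD : w ^ 2 * D ≤ 1 / 10 ^ 15 := le_trans (by gcongr) s1
  have hs := (hL1 D c (w ^ 8 / 8) (w ^ 6) (w ^ 2) D1 (by positivity) (by positivity)
    (pow_le_one₀ hw.le w1) (le_of_eq (by ring)) x1).trans (core_n1 d3 hw h ht)
  obtain ⟨o, hb, ht1, ht2⟩ := hS2 D c (w ^ 2) (w ^ 5) (4 / w ^ 4) hD (by linarith) x0.le
    (by rw [le_div_iff₀ (by positivity)]; linarith) hs (by positivity) (by
      rw [show (4 + 4 / w ^ 4) * w ^ 5 = 4 * w ^ 5 + 4 * w by field_simp,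
        le_div_iff₀ (by positivity)]
      have : w ^ 5 * D ≤ w * D := by gcongr
      linarith)
  rw [show 4 / (4 / w ^ 4) = w ^ 4 by field_simp] at hb
  have hq : 45 / 100 ≤ c.cnt fun a => 1 - w ^ 2 ≤ c.u o a := by
    have e1 := core_or c (p := fun _ => True) (q := fun a => |c.u o a| < 1 - w ^ 2)
      (r := fun a => 1 - w ^ 2 ≤ |c.u o a|) fun a _ _ => lt_or_ge _ _
    have e2 := core_or c (p := fun a => 1 - w ^ 2 ≤ |c.u o a|) (q := fun a => 1 - w ^ 2 ≤ c.u o a)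
      (r := fun a => 1 - w ^ 2 ≤ c.u o (-a)) fun a _ ha => by
        rw [map_neg]
        exact le_abs.1 ha
    have e3 := c.cnt_neg fun a => 1 - w ^ 2 ≤ c.u o a
    have e4 : c.cnt (fun _ => True) = 1 - c.th := by simp [Cfg.cnt, Cfg.th]
    have e5 : c.cnt (fun a => |c.u o a| < 1 - w ^ 2) = c.bad (w ^ 2) o := rfl
    linarith
  have hcap : w ^ 3 ≤ c.μ.real (c.Cap (3 * w ^ 2) o) := by
    have e1 := hLI D c (fun a => 1 - w ^ 2 ≤ c.u o (-a)) (c.u o) (-1) (w ^ 2) 2 (2 * (j + 1)) x0.le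
      (fun a ha hp => by
        rw [map_neg] at hp
        have := abs_le.1 (c.abs_A ha o)
        exact abs_le.2 ⟨by linarith, by linarith⟩)
      fun y hy => by
        have := abs_lt.1 (c.abs_K hy o)
        exact abs_le.2 ⟨by linarith, by linarith⟩
    have e2 : (2 : ℝ) / 2 ^ (2 * (j + 1)) + w ^ 2 = 3 * w ^ 2 := by
      rw [hwd, pow_mul']
      field_simp
      norm_num
    rw [c.cnt_neg fun a => 1 - w ^ 2 ≤ c.u o a, e2] at e1
    simp only [sub_neg_eq_add] at e1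
    refine le_trans ?_ e1
    rw [pow_mul, hwd, one_div, inv_pow, ← pow_mul, mul_comm (j + 1) 3, pow_mul, ← inv_pow]
    refine pow_le_pow_left₀ (by positivity) ?_ _
    rw [← one_div ((2 : ℝ) ^ (j + 1)), ← hwd]
    nlinarith
  obtain ⟨v, hv, hv1, -⟩ := core_ex c (p := fun a => 1 - w ^ 2 ≤ c.u o a) (q := fun _ => False)
    (r := fun _ => True) (by
      have : c.cnt (fun _ => False) = 0 := by simp [Cfg.cnt]
      linarith) fun _ _ _ hn => hn trivial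
  have hκ : 4 * w ^ 2 ≤ 1 / (10 ^ 7 * (D : ℝ) ^ 3) := by
    rw [le_div_iff₀ (by positivity)]
    have : w ^ 2 * D ^ 3 ≤ w * D ^ 3 := by gcongr
    linarith
  have hm := core_n2 d3 hw h ht hb hs (c.cnt_nonneg _) hcap (hPC D c (w ^ 2) (3 * w ^ 2)
    (1 / (10 ^ 7 * (D : ℝ) ^ 3)) o v D1 x0 (by linarith) (by linarith) hκ hv hv1)
  generalize hκd : 1 / (10 ^ 7 * (D : ℝ) ^ 3) = κ at hm
  have hp : ∀ a, ∃ a', c.Mat (w ^ 2) κ o a → a' ∈ c.A ∧ c.u o a' ≤ -1 + w ^ 2 ∧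
      ∑ i, c.w i * |c.u i (a - a') - c.chi (w ^ 2) o i| ≤ κ := fun a => by
    by_cases e : c.Mat (w ^ 2) κ o a
    · obtain ⟨a', h1⟩ := e
      exact ⟨a', fun _ => h1⟩
    · exact ⟨0, fun e' => absurd e' e⟩
  choose p hp using hp
  have ex : ∀ σ : ℝ, 1 / (128 * (D : ℝ)) ≤ c.cnt (fun a => c.u c.it a = σ ∧ 1 - w ^ 2 ≤ c.u o a) →
      ∃ a ∈ c.A.filter fun a => 1 - w ^ 2 ≤ c.u o a ∧ c.Mat (w ^ 2) κ o a, c.u c.it a = σ :=
    fun σ hσ => by
      obtain ⟨a, h1, h2, h3⟩ := core_ex c (r := c.Mat (w ^ 2) κ o) (hm.trans_le hσ)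
        fun a _ h1 h2 => ⟨h1.2, h2⟩
      exact ⟨a, Finset.mem_filter.2 ⟨h1, h2.2, h3⟩, h2.1⟩
  refine hS4 D c (w ^ 2) (6 * D * κ) (n + 1) o
    (c.A.filter fun a => 1 - w ^ 2 ≤ c.u o a ∧ c.Mat (w ^ 2) κ o a) p hD n2
    (by rw [← hκd]; positivity) ?_ x1 (Finset.filter_subset _ _) (fun a ha => ?_)
    (fun a ha b hb i => ?_) (ex 1 ht1) (ex (-1) ht2) ?_
  · rw [← hκd, mul_one_div, div_le_div_iff₀ (by positivity) (by positivity),
      show (4 : ℝ) ^ (n + 1) = 4 * (2 ^ n) ^ 2 by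
        rw [← pow_mul, mul_comm n 2, pow_mul, pow_succ]; norm_num [mul_comm]]
    have : ((2 : ℝ) ^ n) ^ 2 ≤ (48 * D) ^ 2 := by gcongr
    have e : 6 * D * (100 * (4 * ((2 : ℝ) ^ n) ^ 2)) ≤ 6 * D * (100 * (4 * (48 * D) ^ 2)) := by
      gcongr
    have : (0 : ℝ) < D ^ 3 := by positivity
    nlinarith
  · obtain ⟨-, h1, h2⟩ := Finset.mem_filter.1 ha
    exact ⟨h1, (hp a h2).1, (hp a h2).2.1⟩
  · have h1 := (hp a (Finset.mem_filter.1 ha).2.2).2.2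
    have h2 := (hp b (Finset.mem_filter.1 hb).2.2).2.2
    have h3 : ∑ l, c.w l * |c.u l (a - p a - (b - p b))| ≤ κ + κ := by
      refine le_trans (Finset.sum_le_sum fun l _ => ?_) (Finset.sum_add_distrib.trans_le
        (add_le_add h1 h2))
      rw [← mul_add, map_sub (c.u l) (a - p a)]
      refine mul_le_mul_of_nonneg_left ?_ (c.w_nonneg l)
      rw [abs_sub_comm (c.u l (b - p b))]
      exact abs_sub_le _ _ _
    refine (hLR D c _ i D1).trans ?_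
    nlinarith
  · have e1 := core_or c (p := fun a => 1 - w ^ 2 ≤ c.u o a)
      (q := fun a => 1 - w ^ 2 ≤ c.u o a ∧ c.Mat (w ^ 2) κ o a)
      (r := fun a => 1 - w ^ 2 ≤ c.u o a ∧ ¬ c.Mat (w ^ 2) κ o a) fun a _ ha =>
        (em _).imp (fun e => ⟨ha, e⟩) fun e => ⟨ha, e⟩
    have e2 : 1 / (128 * (D : ℝ)) ≤ 1 / 100 := one_div_le_one_div_of_le (by norm_num) (by linarith)
    have e3 : 44 / 100 ≤ c.cnt fun a => 1 - w ^ 2 ≤ c.u o a ∧ c.Mat (w ^ 2) κ o a := by linarith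
    rw [Cfg.cnt, le_div_iff₀ (by positivity)] at e3
    exact e3.trans (le_of_eq (by congr))

end Pool.Agent.P.MP_61d55c_co.SG
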