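import Pool.Agent.P.MP_61d55c_co.SG.Iface

/-! From the bound on strictly antipodal sets to the bound on the number of pairs. -/

set_option autoImplicit false

namespace Pool.Agent.P.MP_61d55c_co.SG

open SimpleGraph Finset
open scoped Classical

variable {d : ℕ}

/-- the graph of 0-antipodal vertex pairs -/
def fin_graph (P : Set (EuclideanSpace ℝ (Fin d))) : SimpleGraph (P.extremePoints ℝ) :=
  SimpleGraph.fromRel fun x y => IsAntipodal0 P x y

lemma fin_symm {P : Set (EuclideanSpace ℝ (Fin d))} {x y : EuclideanSpace ℝ (Fin d)}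
    (h : IsAntipodal0 P x y) : IsAntipodal0 P y x := by
  obtain ⟨hx, hy, f, h0, h1, h2⟩ := h
  exact ⟨hy, hx, -f, neg_ne_zero.2 h0, fun z hz hne => by simpa using h2 z hz hne,
    fun z hz hne => by simpa using h1 z hz hne⟩

lemma fin_count (P : Set (EuclideanSpace ℝ (Fin d))) :
    pairCount P = (fin_graph P).edgeSet.ncard := by
  rw [pairCount, ← Set.ncard_image_of_injective _ (Sym2.map.injective Subtype.val_injective)]
  congr 1
  ext e
  constructor
  · rintro ⟨x, hx, y, hy, hne, h, rfl⟩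
    exact ⟨s(⟨x, hx⟩, ⟨y, hy⟩), by simp [fin_graph, hne, h], rfl⟩
  · rintro ⟨e, he, rfl⟩
    induction e with
    | h x y =>
      simp only [fin_graph, mem_edgeSet, fromRel_adj] at he
      exact ⟨x, x.2, y, y.2, fun h => he.1 (Subtype.ext h), he.2.elim id fin_symm, rfl⟩

lemma fin_turan {W : Type} [Fintype W] (G : SimpleGraph W) {r : ℕ} (hr : 0 < r)
    (cf : G.CliqueFree (r + 1)) :
    (G.edgeSet.ncard : ℝ) ≤ (1 - 1 / r) * (Fintype.card W) ^ 2 / 2 := by
  have h1 := cf.card_edgeFinset_le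
  simp only at h1
  rw [← card_edgeFinset_turanGraph] at h1
  have h2 := (Nat.mul_le_mul_left (2 * r) h1).trans mul_card_edgeFinset_turanGraph_le
  rw [← coe_edgeFinset, Set.ncard_coe_finset]
  have h3 : (2 * r * #G.edgeFinset : ℝ) ≤ (r - 1) * (Fintype.card W) ^ 2 := by
    have := (Nat.cast_le (α := ℝ)).2 h2
    push_cast [Nat.cast_sub hr] at this
    exact this
  have r0 : (0 : ℝ) < r := by exact_mod_cast hr
  have e : (1 - 1 / (r : ℝ)) * (Fintype.card W) ^ 2 / 2 =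
      (r - 1) * (Fintype.card W) ^ 2 / (2 * r) := by field_simp
  rw [e, le_div_iff₀ (by positivity)]
  linarith

lemma fin_num (d : ℕ) :
    1 / (10 ^ 215 * ((d : ℝ) + 1) ^ 84) ≤ (1 / (2 * 10 ^ 15 * ((d : ℝ) + 1) ^ 6)) ^ 14 := by
  rw [one_div_pow, mul_pow, ← pow_mul]
  exact one_div_le_one_div_of_le (by positivity)
    (mul_le_mul_of_nonneg_right (by norm_num) (by positivity))

lemma fin_main {K : ℝ} (K1 : 1 ≤ K) (h : ∀ S : Finset (EuclideanSpace ℝ (Fin d)),
    (∀ p ∈ S, ∀ q ∈ S, p ≠ q → ∃ f : EuclideanSpace ℝ (Fin d) →ₗ[ℝ] ℝ,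
      (∀ z ∈ S, z ≠ p → f z < f p) ∧ ∀ z ∈ S, z ≠ q → f q < f z) → (S.card : ℝ) ≤ K) (n : ℕ) :
    (e0 d n : ℝ) ≤ (1 - 1 / K) * (n : ℝ) ^ 2 / 2 := by
  have hr : 0 < ⌊K⌋₊ := Nat.floor_pos.2 K1
  have r0 : (0 : ℝ) < ⌊K⌋₊ := by exact_mod_cast hr
  have rK : (⌊K⌋₊ : ℝ) ≤ K := Nat.floor_le (by linarith)
  have key : ∀ P : Set (EuclideanSpace ℝ (Fin d)), IsPolytope P →
      (P.extremePoints ℝ).ncard = n → (pairCount P : ℝ) ≤ (1 - 1 / K) * n ^ 2 / 2 := by
    intro P h1 hn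
    have hf : (P.extremePoints ℝ).Finite := by
      obtain ⟨⟨S, hS, rfl⟩, -⟩ := h1
      exact hS.subset extremePoints_convexHull_subset
    have := hf.fintype
    have cf : (fin_graph P).CliqueFree (⌊K⌋₊ + 1) := by
      intro t ht
      have b := h (t.map (Function.Embedding.subtype _)) (by
        intro p hp q hq hne
        obtain ⟨x, hx, rfl⟩ := Finset.mem_map.1 hp
        obtain ⟨y, hy, rfl⟩ := Finset.mem_map.1 hq
        have a := ht.1 hx hy fun e => hne (by rw [e])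
        simp only [fin_graph, fromRel_adj] at a
        obtain ⟨-, -, f, -, f1, f2⟩ := a.2.elim id fin_symm
        refine ⟨f, fun z hz hz' => f1 z ?_ hz', fun z hz hz' => f2 z ?_ hz'⟩
        · obtain ⟨w, -, rfl⟩ := Finset.mem_map.1 hz
          exact extremePoints_subset w.2
        · obtain ⟨w, -, rfl⟩ := Finset.mem_map.1 hz
          exact extremePoints_subset w.2)
      rw [Finset.card_map, ht.2] at b
      have := Nat.lt_floor_add_one K
      push_cast at b
      linarith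
    have t := fin_turan (fin_graph P) hr cf
    rw [← Nat.card_eq_fintype_card, Nat.card_coe_set_eq, hn] at t
    rw [fin_count]
    refine t.trans ?_
    have := one_div_le_one_div_of_le r0 rK
    gcongr
  have pos : 0 ≤ (1 - 1 / K) * (n : ℝ) ^ 2 / 2 := by
    have : 1 / K ≤ 1 := (div_le_one (by linarith)).2 K1
    have : 0 ≤ 1 - 1 / K := by linarith
    positivity
  have : e0 d n ≤ ⌊(1 - 1 / K) * (n : ℝ) ^ 2 / 2⌋₊ :=
    csSup_le' (by rintro _ ⟨P, h1, h2, rfl⟩; exact Nat.le_floor (key P h1 h2))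
  exact ((Nat.cast_le (α := ℝ)).2 this).trans (Nat.floor_le pos)

lemma fin_one {t : ℝ} (ht : t ≤ 1 / 2) (hd : 2 ≤ d) : 1 ≤ (1 - t) * 2 ^ d := by
  have a2 : (2 : ℝ) ≤ 2 ^ d := le_self_pow₀ (by norm_num) (by omega)
  nlinarith

theorem p_FIN (h : S_LIFT) (d : ℕ) (hd : 2 ≤ d) (n : ℕ) :
    (e0 d n : ℝ) ≤
      (1 - 1 / ((1 - 1 / (10 ^ 215 * ((d : ℝ) + 1) ^ 84)) * 2 ^ d)) * (n : ℝ) ^ 2 / 2 := by
  have a0 : (1 : ℝ) ≤ ((d : ℝ) + 1) ^ 84 := one_le_pow₀ (by linarith [d.cast_nonneg (α := ℝ)])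
  exact fin_main (fin_one (one_div_le_one_div_of_le two_pos
    (le_trans (by norm_num) (mul_le_mul_of_nonneg_left a0 (by positivity)))) hd)
    (fun S hS => (h d S hd hS).trans
      (mul_le_mul_of_nonneg_right (sub_le_sub_left (fin_num d) 1) (by positivity))) n

end Pool.Agent.P.MP_61d55c_co.SG
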