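import Pool.Agent.P.MP_61d55c_co.Defs

/-! Packings of half size homothets in a symmetric polytope: definitions, tools, steps. -/

set_option autoImplicit false

namespace Pool.Agent.P.MP_61d55c_co.SG

open MeasureTheory Set
open scoped Classical Pointwise

abbrev V (D : ℕ) : Type := Fin D → ℝ

/-- A symmetric family of forms, a normalised volume and a symmetric antipodal set whose pairs on
one side of the form `u it` are strictly antipodal. -/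
structure Cfg (D : ℕ) where
  k : ℕ
  u : Fin (k + 1) → V D →L[ℝ] ℝ
  μ : Measure (V D)
  haar : μ.IsAddHaarMeasure
  neg : ∀ i, ∃ j, ∀ y, u j y = - u i y
  bdd : ∃ ρ : ℝ, ∀ y, (∀ i, u i y < 1) → ‖y‖ ≤ ρ
  one : μ {y | ∀ i, u i y < 1} = 1
  A : Finset (V D)
  le : ∀ a ∈ A, ∀ i, u i a ≤ 1
  sym : ∀ a ∈ A, -a ∈ A
  sep : ∀ a ∈ A, ∀ b ∈ A, a ≠ b → ∃ i, u i a = 1 ∧ u i b = -1
  it : Fin (k + 1)
  top : ∀ a ∈ A, u it a = 1 ∨ u it a = -1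
  strict : ∀ a ∈ A, ∀ b ∈ A, a ≠ b → u it a = u it b →
    ∃ i, u i a = 1 ∧ u i b = -1 ∧ ∀ z ∈ A, u i z = 1 → z = a ∨ z = -b

/-- Preimage under `y ↦ r • y + a`. -/
def pre {D : ℕ} (r : ℝ) (a : V D) (S : Set (V D)) : Set (V D) := {y | r • y + a ∈ S}

namespace Cfg

variable {D : ℕ} (c : Cfg D)

instance : c.μ.IsAddHaarMeasure := c.haar

/-- The open body dilated by `r`. -/
def KK (r : ℝ) : Set (V D) := {y | ∀ i, c.u i y < r}

/-- The open body. -/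
def K : Set (V D) := c.KK 1

/-- The gauge. -/
noncomputable def N (y : V D) : ℝ := Finset.univ.sup' Finset.univ_nonempty fun i => c.u i y

/-- The cone where `u i` is the first maximiser. -/
def E (i : Fin (c.k + 1)) : Set (V D) :=
  {y | (∀ j, c.u j y ≤ c.u i y) ∧ ∀ j < i, c.u j y < c.u i y}

/-- The cone volume. -/
noncomputable def w (i : Fin (c.k + 1)) : ℝ := c.μ.real (c.E i ∩ c.K)

/-- The half size homothet at `a`. -/
def H (a : V D) : Set (V D) := pre 2 (-a) c.K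

/-- The uncovered part. -/
def U : Set (V D) := c.K \ ⋃ a ∈ c.A, c.H a

/-- Normalised number of points of `A` with a property. -/
noncomputable def cnt (p : V D → Prop) : ℝ := ((c.A.filter p).card : ℝ) / 2 ^ D

/-- The deficiency. -/
noncomputable def th : ℝ := 1 - (c.A.card : ℝ) / 2 ^ D

/-- Normalised number of points where `u i` is not close to `1` or `-1`. -/
noncomputable def bad (x : ℝ) (i : Fin (c.k + 1)) : ℝ := c.cnt fun a => |c.u i a| < 1 - x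

/-- The homothets at the bad points. -/
def Xs (x : ℝ) (i : Fin (c.k + 1)) : Set (V D) :=
  ⋃ a ∈ c.A.filter fun a => |c.u i a| < 1 - x, c.H a

/-- The expected value of `u i` on a difference of partners. -/
noncomputable def chi (x : ℝ) (o i : Fin (c.k + 1)) : ℝ :=
  if ∀ a ∈ c.A, 1 - x ≤ c.u o a → ¬ c.u i a ≤ -1 + x then 2
  else if ∀ a ∈ c.A, 1 - x ≤ c.u o a → ¬ 1 - x ≤ c.u i a then -2 else 0

/-- The exceptional set for the form `u i`. -/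
def XX (x ε : ℝ) (v : V D) (o i : Fin (c.k + 1)) : Set (V D) :=
  c.Xs x i ∪ pre (1 - ε) (-(ε • v)) (c.Xs x i) ∪
    {y | c.chi x o i = 0 ∧ y ∈ c.K ∧ |c.u o y| ≤ ε ∧ |c.u i y| ≤ 3 * ε}

/-- The cap at the bottom. -/
def Cap (ε : ℝ) (o : Fin (c.k + 1)) : Set (V D) := c.K ∩ {y | |c.u o y + 1| ≤ ε}

/-- `a` has a partner. -/
def Mat (x κ : ℝ) (o : Fin (c.k + 1)) (a : V D) : Prop :=
  ∃ a' ∈ c.A, c.u o a' ≤ -1 + x ∧ ∑ i, c.w i * |c.u i (a - a') - c.chi x o i| ≤ κ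

theorem vol_pre {r : ℝ} (hr : 0 < r) (a : V D) (S : Set (V D)) :
    c.μ.real (pre r a S) = c.μ.real S / r ^ D := by
  have e : pre r a S = (r • ·) ⁻¹' ((· + a) ⁻¹' S) := rfl
  rw [measureReal_def, e, Measure.addHaar_preimage_smul _ hr.ne', measure_preimage_add_right,
    ENNReal.toReal_mul, ENNReal.toReal_ofReal (abs_nonneg _), Module.finrank_fin_fun,
    abs_of_pos (by positivity), measureReal_def]
  ring

theorem fin_pre {r : ℝ} (hr : 0 < r) (a : V D) {S : Set (V D)} (h : c.μ S ≠ ⊤) :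
    c.μ (pre r a S) ≠ ⊤ := by
  have e : pre r a S = (r • ·) ⁻¹' ((· + a) ⁻¹' S) := rfl
  rw [e, Measure.addHaar_preimage_smul _ hr.ne', measure_preimage_add_right]
  exact ENNReal.mul_ne_top ENNReal.ofReal_ne_top h

theorem _root_.Pool.Agent.P.MP_61d55c_co.SG.meas_pre (r : ℝ) (a : V D) {S : Set (V D)}
    (h : MeasurableSet S) : MeasurableSet (pre r a S) :=
  h.preimage (f := fun y : V D => r • y + a) (by fun_prop)

theorem open_KK (r : ℝ) : IsOpen (c.KK r) := by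
  rw [KK, setOf_forall]
  exact isOpen_iInter_of_finite fun i => isOpen_lt (c.u i).continuous continuous_const

theorem meas_KK (r : ℝ) : MeasurableSet (c.KK r) := (c.open_KK r).measurableSet

theorem meas_K : MeasurableSet c.K := c.meas_KK 1

theorem meas_H (a : V D) : MeasurableSet (c.H a) := meas_pre _ _ c.meas_K

theorem vol_K : c.μ.real c.K = 1 := by
  rw [measureReal_def, show c.μ c.K = 1 from c.one]; rfl

theorem fin_K {S : Set (V D)} (h : S ⊆ c.K) : c.μ S ≠ ⊤ :=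
  ne_top_of_le_ne_top (by rw [show c.μ c.K = 1 from c.one]; simp) (measure_mono h)

theorem KK_eq {r : ℝ} (hr : 0 < r) : c.KK r = pre r⁻¹ 0 c.K := by
  ext y
  simp [KK, K, pre, inv_mul_lt_iff₀ hr]

theorem fin_KK {r : ℝ} (hr : 0 < r) {S : Set (V D)} (h : S ⊆ c.KK r) : c.μ S ≠ ⊤ :=
  ne_top_of_le_ne_top (c.KK_eq hr ▸ c.fin_pre (inv_pos.2 hr) 0 (c.fin_K le_rfl)) (measure_mono h)

/-- Scaling of cones. -/
theorem vol_cone {X : Set (V D)} (hX : ∀ s : ℝ, 0 < s → ∀ y, s • y ∈ X ↔ y ∈ X) {r : ℝ}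
    (hr : 0 < r) : c.μ.real (X ∩ c.KK r) = r ^ D * c.μ.real (X ∩ c.K) := by
  have e : X ∩ c.KK r = pre r⁻¹ 0 (X ∩ c.K) := by
    rw [c.KK_eq hr]
    ext y
    simp [pre, hX _ (inv_pos.2 hr)]
  rw [e, c.vol_pre (inv_pos.2 hr)]
  simp [mul_comm]

theorem le_N (y : V D) (i : Fin (c.k + 1)) : c.u i y ≤ c.N y :=
  Finset.le_sup' (fun i => c.u i y) (Finset.mem_univ i)

theorem N_lt {y : V D} {r : ℝ} : c.N y < r ↔ y ∈ c.KK r := by
  simp [N, KK, Finset.sup'_lt_iff]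

theorem N_le {y : V D} {r : ℝ} : c.N y ≤ r ↔ ∀ i, c.u i y ≤ r := by
  simp [N, Finset.sup'_le_iff]

theorem cont_N : Continuous c.N :=
  Continuous.finset_sup'_apply Finset.univ_nonempty fun i _ => (c.u i).continuous

theorem ex_E (y : V D) : ∃ i, y ∈ c.E i := by
  obtain ⟨i, -, hi⟩ := Finset.exists_max_image Finset.univ (fun i => c.u i y) Finset.univ_nonempty
  obtain ⟨m, hm, h2⟩ := Finset.exists_min_image
    (Finset.univ.filter fun i => ∀ j, c.u j y ≤ c.u i y) id ⟨i, by simpa using hi⟩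
  have h1 := (Finset.mem_filter.1 hm).2
  refine ⟨m, h1, fun j hj => lt_of_not_ge fun h => hj.not_ge (h2 j ?_)⟩
  simpa using fun l => (h1 l).trans h

theorem N_eq {y : V D} {i : Fin (c.k + 1)} (h : y ∈ c.E i) : c.N y = c.u i y :=
  le_antisymm (c.N_le.2 h.1) (c.le_N y i)

theorem disj_E {i j : Fin (c.k + 1)} (h : i ≠ j) : Disjoint (c.E i) (c.E j) :=
  disjoint_left.2 fun _ a b => h.lt_or_gt.elim (fun e => (b.2 i e).not_ge (a.1 j))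
    fun e => (a.2 j e).not_ge (b.1 i)

theorem meas_E (i : Fin (c.k + 1)) : MeasurableSet (c.E i) := by
  simp only [E, setOf_and, setOf_forall]
  exact (MeasurableSet.iInter fun j => measurableSet_le (by fun_prop) (by fun_prop)).inter
    (MeasurableSet.iInter fun j => MeasurableSet.iInter fun _ =>
      measurableSet_lt (by fun_prop) (by fun_prop))

theorem cone_E (i : Fin (c.k + 1)) (s : ℝ) (hs : 0 < s) (y : V D) : s • y ∈ c.E i ↔ y ∈ c.E i := by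
  simp [E, hs]

theorem w_nonneg (i : Fin (c.k + 1)) : 0 ≤ c.w i := measureReal_nonneg

/-- Disjoint pieces inside a set of finite volume. -/
theorem sum_le {ι : Type} (B : Finset ι) (S : ι → Set (V D)) {W : Set (V D)} (hW : c.μ W ≠ ⊤)
    (h1 : ∀ b ∈ B, S b ⊆ W) (h2 : ∀ b ∈ B, MeasurableSet (S b))
    (h3 : ∀ a ∈ B, ∀ b ∈ B, a ≠ b → Disjoint (S a) (S b)) :
    ∑ b ∈ B, c.μ.real (S b) ≤ c.μ.real W := by
  rw [← measureReal_biUnion_finset (fun a ha b hb e => h3 a ha b hb e) h2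
    fun b hb => ne_top_of_le_ne_top hW (measure_mono (h1 b hb))]
  exact measureReal_mono (iUnion₂_subset h1) hW

/-- A cover by finitely many pieces of finite volume. -/
theorem le_sum {ι : Type} (B : Finset ι) (S : ι → Set (V D)) {W : Set (V D)}
    (h1 : W ⊆ ⋃ b ∈ B, S b) (h2 : ∀ b ∈ B, c.μ (S b) ≠ ⊤) :
    c.μ.real W ≤ ∑ b ∈ B, c.μ.real (S b) :=
  (measureReal_mono h1 (measure_biUnion_ne_top B.finite_toSet h2)).trans
    (measureReal_biUnion_finset_le _ _)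

theorem sum_w : ∑ i, c.w i = 1 := by
  refine le_antisymm (c.vol_K ▸ c.sum_le _ _ (c.fin_K le_rfl) (fun _ _ => inter_subset_right)
    (fun i _ => (c.meas_E i).inter c.meas_K) fun _ _ _ _ e =>
      (c.disj_E e).mono inter_subset_left inter_subset_left)
    (c.vol_K ▸ c.le_sum _ _ (fun y hy => ?_) fun _ _ => c.fin_K inter_subset_right)
  obtain ⟨i, hi⟩ := c.ex_E y
  exact mem_biUnion (Finset.mem_univ i) ⟨hi, hy⟩

theorem abs_K {y : V D} (h : y ∈ c.K) (i : Fin (c.k + 1)) : |c.u i y| < 1 := by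
  obtain ⟨j, hj⟩ := c.neg i
  have := h j
  rw [hj] at this
  exact abs_lt.2 ⟨by linarith, h i⟩

theorem abs_A {a : V D} (h : a ∈ c.A) (i : Fin (c.k + 1)) : |c.u i a| ≤ 1 := by
  have := c.le _ (c.sym a h) i
  rw [map_neg] at this
  exact abs_le.2 ⟨by linarith, c.le a h i⟩

theorem neg_K {y : V D} (h : y ∈ c.K) : -y ∈ c.K := fun i => by
  have := abs_lt.1 (c.abs_K h i)
  rw [map_neg]
  linarith

theorem convex_K : Convex ℝ c.K := by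
  rw [K, KK, setOf_forall]
  exact convex_iInter fun i => convex_halfSpace_lt (c.u i).toLinearMap.isLinear 1

/-- On `H a` the value of `2 u i y - u i a` lies in `(-1, 1)`. -/
theorem abs_H {a y : V D} (h : y ∈ c.H a) (i : Fin (c.k + 1)) : |2 * c.u i y - c.u i a| < 1 := by
  simpa [sub_eq_add_neg] using c.abs_K h i

theorem H_sub {a : V D} (h : a ∈ c.A) : c.H a ⊆ c.K := fun y hy i => by
  have := abs_lt.1 (c.abs_H hy i)
  linarith [c.le a h i]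

theorem disj_H {a b : V D} (ha : a ∈ c.A) (hb : b ∈ c.A) (h : a ≠ b) :
    Disjoint (c.H a) (c.H b) := disjoint_left.2 fun y h1 h2 => by
  obtain ⟨i, e1, e2⟩ := c.sep a ha b hb h
  have := abs_lt.1 (c.abs_H h1 i)
  have := abs_lt.1 (c.abs_H h2 i)
  linarith

theorem vol_H (a : V D) : c.μ.real (c.H a) = 1 / 2 ^ D := by
  rw [H, c.vol_pre two_pos, c.vol_K]

theorem meas_U : MeasurableSet c.U :=
  c.meas_K.diff (c.A.measurableSet_biUnion fun a _ => c.meas_H a)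

theorem vol_U : c.μ.real c.U = c.th := by
  rw [U, measureReal_diff (iUnion₂_subset fun _ => c.H_sub)
    (c.A.measurableSet_biUnion fun a _ => c.meas_H a) (c.fin_K le_rfl), c.vol_K,
    measureReal_biUnion_finset (fun a ha b hb e => c.disj_H ha hb e) (fun a _ => c.meas_H a)
      fun a ha => c.fin_K (c.H_sub ha)]
  simp [c.vol_H, th, div_eq_mul_inv]

theorem th_nonneg : 0 ≤ c.th := c.vol_U ▸ measureReal_nonneg

theorem cnt_nonneg (p : V D → Prop) : 0 ≤ c.cnt p := by unfold cnt; positivity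

theorem cnt_neg (p : V D → Prop) : c.cnt (fun a => p (-a)) = c.cnt p := by
  unfold cnt
  congr 2
  exact Finset.card_bij (fun a _ => -a) (fun a h => by
    simpa using ⟨c.sym a (Finset.mem_filter.1 h).1, (Finset.mem_filter.1 h).2⟩)
    (fun _ _ _ _ => neg_injective.eq_iff.1) fun b h => ⟨-b, by
      simpa using ⟨c.sym b (Finset.mem_filter.1 h).1, (Finset.mem_filter.1 h).2⟩, neg_neg b⟩

end Cfg

def S_L1 : Prop := ∀ (D : ℕ) (c : Cfg D) (τ η x : ℝ), 1 ≤ D → 0 < τ → 0 < η → η ≤ 1 →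
  8 * τ ≤ x * η → x < 1 → ∑ i, c.w i * c.bad x i ≤ c.th / (τ * D) + τ * D + η * D

def S_LR : Prop := ∀ (D : ℕ) (c : Cfg D) (h : V D) (j : Fin (c.k + 1)), 1 ≤ D →
  c.u j h ≤ 6 * D * ∑ i, c.w i * |c.u i h|

def S_LS : Prop := ∀ (D : ℕ) (c : Cfg D) (W : Set (V D)) (β : V D →L[ℝ] ℝ) (z : V D) (e : ℝ),
  1 ≤ D → Convex ℝ W → MeasurableSet W → c.μ W ≠ ⊤ → z ∈ W → 0 < β z → 0 < e →
  c.μ.real (W ∩ {y | |β y| ≤ e}) ≤ 12 * e * D / β z * c.μ.real W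

def S_LI : Prop := ∀ (D : ℕ) (c : Cfg D) (p : V D → Prop) (β : V D →L[ℝ] ℝ) (s x R : ℝ) (n : ℕ),
  0 ≤ x → (∀ a ∈ c.A, p a → |β a - s| ≤ x) → (∀ y ∈ c.K, |β y - s| ≤ R) →
  c.cnt p ^ n ≤ c.μ.real (c.K ∩ {y | |β y - s| ≤ R / 2 ^ n + x})

def S_LA : Prop := ∀ (D : ℕ) (c : Cfg D) (β : V D →L[ℝ] ℝ) (R : ℝ) (n : ℕ), 1 ≤ D → 0 < R →
  (∀ y ∈ c.K, |β y| ≤ R) → (∃ z ∈ c.K, R / 2 ≤ β z) → (48 * D : ℝ) < 2 ^ n →
  c.cnt (fun a => |β a| ≤ R / 4 ^ n) < 71 / 100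

def S_S2 : Prop := ∀ (D : ℕ) (c : Cfg D) (x d l : ℝ), 3 ≤ D → c.th ≤ 1 / 4 → 0 ≤ x →
  x ≤ 1 / (12 * D) → ∑ i, c.w i * c.bad x i ≤ d → 0 < l → (4 + l) * d ≤ 1 / (32 * D) →
  ∃ o, c.bad x o ≤ 4 / l ∧
    1 / (128 * D) ≤ c.cnt (fun a => c.u c.it a = 1 ∧ 1 - x ≤ c.u o a) ∧
    1 / (128 * D) ≤ c.cnt (fun a => c.u c.it a = -1 ∧ 1 - x ≤ c.u o a)

def S_PA : Prop := ∀ (D : ℕ) (c : Cfg D) (x ε : ℝ) (o : Fin (c.k + 1)) (v a y : V D),
  0 < x → 2 * x ≤ ε → ε ≤ 1 / 2 → v ∈ c.A → 1 - x ≤ c.u o v → a ∈ c.A → 1 - x ≤ c.u o a →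
  y ∈ pre 2 (-a) (c.Cap ε o) → y ∉ pre (1 - ε) (-(ε • v)) (c.U ∪ c.Xs x o) →
  ∃ a' ∈ c.A, c.u o a' ≤ -1 + x ∧
    ∀ i, y ∉ c.XX x ε v o i → |c.u i (a - a') - c.chi x o i| ≤ 2 * x

def S_PB : Prop := ∀ (D : ℕ) (c : Cfg D) (x ε : ℝ) (o i : Fin (c.k + 1)) (v : V D),
  1 ≤ D → 0 < x → 2 * x ≤ ε → ε * D ≤ 1 / 2 → v ∈ c.A → 1 - x ≤ c.u o v →
  MeasurableSet (c.XX x ε v o i) ∧ c.μ (c.XX x ε v o i) ≠ ⊤ ∧
    c.μ.real (c.XX x ε v o i) ≤ 3 * c.bad x i + 1728 * ε ^ 2 * D ^ 2 ∧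
    c.μ (pre (1 - ε) (-(ε • v)) (c.U ∪ c.Xs x o)) ≠ ⊤ ∧
    c.μ.real (pre (1 - ε) (-(ε • v)) (c.U ∪ c.Xs x o)) ≤ 2 * (c.th + c.bad x o)

def S_PC : Prop := ∀ (D : ℕ) (c : Cfg D) (x ε κ : ℝ) (o : Fin (c.k + 1)) (v : V D),
  1 ≤ D → 0 < x → 2 * x ≤ ε → ε * D ≤ 1 / 2 → 4 * x ≤ κ → v ∈ c.A → 1 - x ≤ c.u o v →
  c.cnt (fun a => 1 - x ≤ c.u o a ∧ ¬ c.Mat x κ o a) * c.μ.real (c.Cap ε o) ≤
    2 * (c.th + c.bad x o) + 8 / κ * (3 * ∑ i, c.w i * c.bad x i + 1728 * ε ^ 2 * D ^ 2)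

def S_S4 : Prop := ∀ (D : ℕ) (c : Cfg D) (x κ : ℝ) (n : ℕ) (o : Fin (c.k + 1)) (J : Finset (V D))
  (p : V D → V D), 3 ≤ D → (48 * D : ℝ) < 2 ^ n → 0 < κ → κ ≤ 1 / (100 * 4 ^ n) → x < 1 →
  J ⊆ c.A → (∀ a ∈ J, 1 - x ≤ c.u o a ∧ p a ∈ c.A ∧ c.u o (p a) ≤ -1 + x) →
  (∀ a ∈ J, ∀ b ∈ J, ∀ j, c.u j (a - p a - (b - p b)) ≤ 2 * κ) →
  (∃ a ∈ J, c.u c.it a = 1) → (∃ a ∈ J, c.u c.it a = -1) → 44 / 100 * 2 ^ D ≤ (J.card : ℝ) → False

def S_CORE : Prop := ∀ (D : ℕ) (c : Cfg D), 3 ≤ D → (1 / (2 * 10 ^ 15 * D ^ 6)) ^ 14 < c.th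

def S_LIFT : Prop := ∀ (d : ℕ) (S : Finset (EuclideanSpace ℝ (Fin d))), 2 ≤ d →
  (∀ p ∈ S, ∀ q ∈ S, p ≠ q → ∃ f : EuclideanSpace ℝ (Fin d) →ₗ[ℝ] ℝ,
    (∀ z ∈ S, z ≠ p → f z < f p) ∧ ∀ z ∈ S, z ≠ q → f q < f z) →
  (S.card : ℝ) ≤ (1 - (1 / (2 * 10 ^ 15 * (d + 1) ^ 6)) ^ 14) * 2 ^ d

def S_FIN : Prop := ∃ C : ℕ, ∀ d : ℕ, 2 ≤ d → ∀ n : ℕ,
  (e0 d n : ℝ) ≤ (1 - 1 / ((1 - 1 / (d : ℝ) ^ C) * 2 ^ d)) * n ^ 2 / 2

end Pool.Agent.P.MP_61d55c_co.SG
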