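import Pool.Agent.P.MP_61d55c_co.SG.Iface

/-! Step L1: typical normals take two levels on the antipodal set. -/

set_option autoImplicit false

namespace Pool.Agent.P.MP_61d55c_co.SG

open MeasureTheory Set
open scoped Classical

variable {D : ℕ} (c : Cfg D)

theorem l1_smul {s : ℝ} (hs : 0 < s) (y : V D) : c.N (s • y) = s * c.N y := by
  obtain ⟨i, hi⟩ := c.ex_E y
  rw [c.N_eq hi, c.N_eq ((c.cone_E i s hs y).2 hi), map_smul, smul_eq_mul]

theorem l1_add {a : V D} (ha : a ∈ c.A) (y : V D) {s : ℝ} (hs : 0 ≤ s) :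
    c.N (y + s • a) ≤ c.N y + s := c.N_le.2 fun i => by
  rw [map_add, map_smul, smul_eq_mul]
  have h1 := c.le_N y i
  have h2 := mul_le_mul_of_nonneg_left (c.le a ha i) hs
  linarith

/-- points of the body that are almost as far as possible from `-a` -/
def l1_Pl (τ : ℝ) (a : V D) : Set (V D) := {y | y ∈ c.K ∧ 2 - 2 * τ ≤ c.N (y + a)}

/-- a cone around these points -/
def l1_Pc (τ : ℝ) (a : V D) : Set (V D) :=
  {y | 0 < c.N y ∧ (2 - 4 * τ) * c.N y ≤ c.N (y + c.N y • a)}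

theorem l1_cone (τ : ℝ) (a : V D) (s : ℝ) (hs : 0 < s) (y : V D) :
    s • y ∈ l1_Pc c τ a ↔ y ∈ l1_Pc c τ a := by
  have e : s • y + (s * c.N y) • a = s • (y + c.N y • a) := by rw [smul_add, smul_smul]
  simp only [l1_Pc, mem_ofPred_eq]
  rw [l1_smul c hs, e, l1_smul c hs, mul_left_comm, mul_le_mul_iff_right₀ hs,
    mul_pos_iff_of_pos_left hs]

theorem l1_layer {r : ℝ} (hr : 0 < r) (hr1 : r ≤ 1) {X : Set (V D)}
    (hX : ∀ s : ℝ, 0 < s → ∀ y, s • y ∈ X ↔ y ∈ X) :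
    c.μ.real ((X ∩ c.K) \ c.KK r) = (1 - r ^ D) * c.μ.real (X ∩ c.K) := by
  have h1 := measureReal_inter_add_sdiff (μ := c.μ) (s := X ∩ c.K) (c.meas_KK r)
    (c.fin_K inter_subset_right)
  have e : X ∩ c.K ∩ c.KK r = X ∩ c.KK r := by
    ext y
    exact ⟨fun h => ⟨h.1.1, h.2⟩, fun h => ⟨⟨h.1, fun i => (h.2 i).trans_le hr1⟩, h.2⟩⟩
  rw [e, c.vol_cone hX hr] at h1
  linarith

theorem l1_i {τ : ℝ} (h0 : 0 < τ) (h1 : τ < 1) :
    1 - (1 - τ) ^ D ≤ c.th + ∑ a ∈ c.A, c.μ.real (l1_Pl c τ a) / 2 ^ D := by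
  have h2 := l1_layer c (r := 1 - τ) (by linarith) (by linarith) (X := univ) (by simp)
  rw [univ_inter, c.vol_K, mul_one] at h2
  have hfin : ∀ a ∈ c.A, c.μ (pre 2 (-a) (l1_Pl c τ a)) ≠ ⊤ := fun a _ =>
    c.fin_pre two_pos _ (c.fin_K fun _ h => h.1)
  have hsub : c.K \ c.KK (1 - τ) ⊆ c.U ∪ ⋃ a ∈ c.A, pre 2 (-a) (l1_Pl c τ a) := by
    rintro y ⟨hy, hy'⟩
    by_cases hU : y ∈ ⋃ a ∈ c.A, c.H a
    · obtain ⟨a, ha, hH⟩ := mem_iUnion₂.1 hU
      refine Or.inr (mem_iUnion₂.2 ⟨a, ha, hH, ?_⟩)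
      rw [neg_add_cancel_right, l1_smul c two_pos]
      have := not_lt.1 fun h => hy' (c.N_lt.1 h)
      linarith
    · exact Or.inl ⟨hy, hU⟩
  have h3 := measureReal_mono hsub (measure_union_ne_top (c.fin_K sdiff_subset)
    (measure_biUnion_ne_top c.A.finite_toSet hfin))
  have h4 := measureReal_union_le (μ := c.μ) c.U (⋃ a ∈ c.A, pre 2 (-a) (l1_Pl c τ a))
  have h5 := c.le_sum c.A (fun a => pre 2 (-a) (l1_Pl c τ a)) le_rfl hfin
  simp only [c.vol_pre two_pos] at h5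
  rw [c.vol_U] at h4
  linarith

theorem l1_ii {τ : ℝ} (h0 : 0 < τ) (h1 : τ < 1 / 8) {a : V D} (ha : a ∈ c.A) :
    c.μ.real (l1_Pl c τ a) ≤ 2 * τ * D * c.μ.real (l1_Pc c τ a ∩ c.K) := by
  have h2 := l1_layer c (r := 1 - 2 * τ) (by linarith) (by linarith) (l1_cone c τ a)
  have hsub : l1_Pl c τ a ⊆ (l1_Pc c τ a ∩ c.K) \ c.KK (1 - 2 * τ) := by
    rintro y ⟨hy, hy'⟩
    have h3 := l1_add c ha y zero_le_one
    rw [one_smul] at h3
    have h4 : c.N y < 1 := c.N_lt.2 hy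
    have h5 := l1_add c ha (y + c.N y • a) (s := 1 - c.N y) (by linarith)
    rw [add_assoc, ← add_smul, add_sub_cancel, one_smul] at h5
    refine ⟨⟨⟨by linarith, ?_⟩, hy⟩, fun h => ?_⟩
    · nlinarith
    · have := c.N_lt.2 h
      linarith
  have h3 := measureReal_mono hsub (c.fin_K (sdiff_subset.trans inter_subset_right))
  have h4 := one_add_mul_le_pow (a := -(2 * τ)) (by linarith) D
  rw [h2] at h3
  refine h3.trans (mul_le_mul_of_nonneg_right ?_ measureReal_nonneg)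
  rw [← sub_eq_add_neg] at h4
  linarith

theorem l1_iii {τ η x : ℝ} (h0 : 0 < τ) (h1 : τ < 1 / 8) (hη : 0 < η) (hη1 : η ≤ 1)
    (hx : 8 * τ ≤ x * η) {a : V D} (ha : a ∈ c.A) :
    c.μ.real (l1_Pc c τ a ∩ c.K) ≤
      (1 + η) ^ D * ∑ i ∈ Finset.univ.filter fun i => 1 - x ≤ c.u i a, c.w i := by
  have hr : 0 < 1 + η := by linarith
  have h2 := c.le_sum (Finset.univ.filter fun i => 1 - x ≤ c.u i a)
    (fun i => pre 1 (η • a) (c.E i ∩ c.KK (1 + η))) (W := l1_Pc c τ a ∩ c.K) ?_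
    fun i _ => c.fin_pre one_pos _ (c.fin_KK hr inter_subset_right)
  · simp only [c.vol_pre one_pos, one_pow, div_one, c.vol_cone (c.cone_E _) hr] at h2
    rw [Finset.mul_sum]
    exact h2
  rintro y ⟨⟨hn, hy⟩, hK⟩
  have h4 : c.N y < 1 := c.N_lt.2 hK
  obtain ⟨i, hi⟩ := c.ex_E (y + η • a)
  obtain ⟨j, hj⟩ := c.ex_E (y + c.N y • a)
  have e1 := c.N_eq hi
  have e2 := c.N_eq hj
  have e3 := c.le_N (y + η • a) j
  rw [map_add, map_smul, smul_eq_mul] at e1 e2 e3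
  have l1 := c.le_N y i
  have l2 := c.le_N y j
  have l3 := mul_le_mul_of_nonneg_left (c.le a ha j) hn.le
  have l4 : 1 - 4 * τ ≤ c.u j a := le_of_mul_le_mul_left (by nlinarith) hn
  have l5 := mul_le_mul_of_nonneg_left l4 hη.le
  have l6 : 1 - x ≤ c.u i a := le_of_mul_le_mul_left (by nlinarith) hη
  refine mem_iUnion₂.2 ⟨i, by simpa using l6, ?_⟩
  change (1 : ℝ) • y + η • a ∈ c.E i ∩ c.KK (1 + η)
  rw [one_smul]
  exact ⟨hi, c.N_lt.1 ((l1_add c ha y hη.le).trans_lt (by linarith))⟩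

theorem l1_bad {x : ℝ} (hx : x < 1) (i : Fin (c.k + 1)) :
    c.bad x i = 1 - c.th - 2 * c.cnt fun a => 1 - x ≤ c.u i a := by
  have h1 := c.cnt_neg fun a => 1 - x ≤ c.u i a
  have h2 : c.bad x i + c.cnt (fun a => 1 - x ≤ c.u i a) + c.cnt (fun a => 1 - x ≤ c.u i (-a)) =
      (c.A.card : ℝ) / 2 ^ D := by
    unfold Cfg.bad Cfg.cnt
    rw [← add_div, ← add_div]
    congr 1
    simp only [Finset.card_filter, Nat.cast_sum]
    rw [← Finset.sum_add_distrib, ← Finset.sum_add_distrib, Finset.card_eq_sum_ones, Nat.cast_sum]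
    refine Finset.sum_congr rfl fun a _ => ?_
    have hn : c.u i (-a) = -c.u i a := map_neg _ _
    by_cases p1 : 1 - x ≤ c.u i a
    · rw [if_pos p1, if_neg (fun h => by linarith [(abs_lt.1 h).2]), if_neg (by linarith)]
      simp
    · by_cases p2 : 1 - x ≤ c.u i (-a)
      · rw [if_pos p2, if_neg p1, if_neg (fun h => by linarith [(abs_lt.1 h).1])]
        simp
      · rw [if_neg p2, if_neg p1, if_pos (abs_lt.2 ⟨by linarith, by linarith⟩)]
        simp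
  unfold Cfg.th
  linarith

theorem l1_swap (x : ℝ) :
    ∑ a ∈ c.A, (∑ i ∈ Finset.univ.filter fun i => 1 - x ≤ c.u i a, c.w i) / 2 ^ D =
      ∑ i, c.w i * c.cnt fun a => 1 - x ≤ c.u i a := by
  unfold Cfg.cnt
  simp only [Finset.sum_filter, Finset.card_filter, Nat.cast_sum, Finset.sum_div, Finset.mul_sum]
  rw [Finset.sum_comm]
  refine Finset.sum_congr rfl fun i _ => Finset.sum_congr rfl fun a _ => ?_
  split_ifs <;> simp [div_eq_mul_inv]

theorem l1_pow {s : ℝ} (h0 : 0 ≤ s) (h1 : s ≤ 1) (D : ℕ) : (1 - s) ^ D * (1 + s) ^ D ≤ 1 := by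
  rw [← mul_pow]
  exact pow_le_one₀ (by nlinarith) (by nlinarith)

theorem p_L1 : S_L1 := by
  intro D c τ η x hD h0 hη hη1 hx hx1
  have hx0 : 0 < x := (mul_pos_iff_of_pos_right hη).1 (by linarith)
  have h1 : τ < 1 / 8 := by nlinarith
  have hD' : (1 : ℝ) ≤ D := by exact_mod_cast hD
  set S := ∑ i, c.w i * c.cnt fun a => 1 - x ≤ c.u i a with hS
  have hS0 : 0 ≤ S := Finset.sum_nonneg fun i _ => mul_nonneg (c.w_nonneg i) (c.cnt_nonneg _)
  have e : ∑ i, c.w i * c.bad x i = 1 - c.th - 2 * S := by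
    simp only [l1_bad c hx1, mul_sub, Finset.sum_sub_distrib, mul_one, ← Finset.sum_mul, c.sum_w,
      hS, Finset.mul_sum, one_mul, mul_left_comm]
  have ht : 0 < τ * D := by positivity
  have hth := c.th_nonneg
  have hq : 0 ≤ c.th / (τ * D) := by positivity
  have h2 : 1 - (1 - τ) ^ D ≤ c.th + 2 * τ * D * (1 + η) ^ D * S := by
    refine (l1_i c h0 (by linarith)).trans (add_le_add le_rfl ?_)
    rw [hS, ← l1_swap c x, Finset.mul_sum]
    refine Finset.sum_le_sum fun a ha => ?_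
    rw [← mul_div_assoc, mul_assoc]
    exact div_le_div_of_nonneg_right ((l1_ii c h0 h1 ha).trans (by
      rw [← mul_assoc]
      have := mul_le_mul_of_nonneg_left (l1_iii c h0 h1 hη hη1 hx ha)
        (show 0 ≤ 2 * τ * D by positivity)
      linarith)) (by positivity)
  have h3 : (1 - τ) ^ D ≤ 1 - τ * D + (τ * D) ^ 2 := by
    have a1 := l1_pow h0.le (by linarith) D
    have a2 := one_add_mul_le_pow (a := τ) (by linarith) D
    have a3 : 0 ≤ (1 - τ) ^ D := pow_nonneg (by linarith) D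
    have a4 := mul_le_mul_of_nonneg_left a2 a3
    refine le_of_mul_le_mul_right ?_ (show 0 < 1 + τ * D by linarith)
    have a5 : 0 ≤ (τ * D) ^ 3 := by positivity
    nlinarith
  have h4 : 1 - τ * D - c.th / (τ * D) ≤ 2 * (1 + η) ^ D * S := by
    refine le_of_mul_le_mul_left ?_ ht
    rw [mul_sub, mul_div_cancel₀ _ ht.ne']
    nlinarith
  rw [e]
  by_cases hc : 1 ≤ η * D
  · linarith
  have h5 : (1 - η * D) * (1 + η) ^ D ≤ 1 := by
    have a1 := l1_pow hη.le hη1 D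
    have a2 := one_add_mul_le_pow (a := -η) (by linarith) D
    rw [← sub_eq_add_neg] at a2
    have a3 := mul_le_mul_of_nonneg_right a2 (pow_nonneg (show 0 ≤ 1 + η by linarith) D)
    nlinarith
  have h6 := mul_le_mul_of_nonneg_left h4 (show 0 ≤ 1 - η * D by linarith)
  have h7 := mul_le_mul_of_nonneg_right h5 hS0
  have h8 : 0 ≤ η * D * (τ * D + c.th / (τ * D)) := by positivity
  nlinarith

end Pool.Agent.P.MP_61d55c_co.SG
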