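import Pool.Agent.P.MP_61d55c_co.SG.Iface

/-! Iterated homothets; few points of the set lie in a thin slab. -/

set_option autoImplicit false

namespace Pool.Agent.P.MP_61d55c_co.SG

open MeasureTheory Set
open scoped Classical

theorem p_LI : S_LI := by
  intro D c p β s x R n hx hA hK
  induction n with
  | zero =>
    have e : c.K ∩ {y | |β y - s| ≤ R / 2 ^ 0 + x} = c.K := by
      refine inter_eq_left.2 fun z hz => ?_
      have := hK z hz
      change |β z - s| ≤ R / 2 ^ 0 + x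
      rw [pow_zero, div_one]
      linarith
    rw [e, c.vol_K, pow_zero]
  | succ n ih =>
    set T := c.K ∩ {y | |β y - s| ≤ R / 2 ^ n + x} with hT
    have hTm : MeasurableSet T :=
      c.meas_K.inter (measurableSet_le (by fun_prop) measurable_const)
    have hsub : ∀ a, pre 2 (-a) T ⊆ c.H a := fun a y hy => hy.1
    have h := c.sum_le (c.A.filter p) (fun a => pre 2 (-a) T)
      (W := c.K ∩ {y | |β y - s| ≤ R / 2 ^ (n + 1) + x}) (c.fin_K inter_subset_left)
      (fun a ha y hy => ?_) (fun a _ => meas_pre _ _ hTm)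
      fun a ha b hb e => (c.disj_H (Finset.mem_filter.1 ha).1 (Finset.mem_filter.1 hb).1 e).mono
        (hsub a) (hsub b)
    · refine le_trans ?_ h
      simp only [c.vol_pre two_pos, Finset.sum_const, nsmul_eq_mul]
      rw [pow_succ']
      calc c.cnt p * c.cnt p ^ n ≤ c.cnt p * c.μ.real T :=
            mul_le_mul_of_nonneg_left ih (c.cnt_nonneg p)
        _ = _ := by unfold Cfg.cnt; ring
    · obtain ⟨ha, hp⟩ := Finset.mem_filter.1 ha
      refine ⟨c.H_sub ha (hsub a hy), ?_⟩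
      have h1 := abs_le.1 (hA a ha hp)
      have h2 : |β ((2 : ℝ) • y + -a) - s| ≤ R / 2 ^ n + x := hy.2
      rw [map_add, map_smul, map_neg, smul_eq_mul, abs_le] at h2
      have h3 : R / 2 ^ (n + 1) = R / 2 ^ n / 2 := by rw [pow_succ, div_div]
      change |β y - s| ≤ R / 2 ^ (n + 1) + x
      rw [h3, abs_le]
      constructor <;> linarith [h1.1, h1.2, h2.1, h2.2]

theorem p_LA (hLS : S_LS) : S_LA := by
  intro D c β R n hD hR hK ⟨z, hz, hβ⟩ hn
  by_contra hc
  rw [not_lt] at hc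
  have h4 : (2 : ℝ) ^ (2 * n) = 4 ^ n := by rw [pow_mul]; norm_num
  have h1 := p_LI D c (fun a => |β a| ≤ R / 4 ^ n) β 0 (R / 4 ^ n) R (2 * n) (by positivity)
    (fun a _ h => by simpa using h) fun y hy => by simpa using hK y hy
  have hb : 0 < β z := by linarith
  have h2 := hLS D c c.K β z (2 * R / 4 ^ n) hD c.convex_K c.meas_K (c.fin_K le_rfl) hz hb
    (by positivity)
  have e : {y | |β y - 0| ≤ R / 2 ^ (2 * n) + R / 4 ^ n} = {y | |β y| ≤ 2 * R / 4 ^ n} := by
    ext y
    rw [h4, mem_ofPred_eq, mem_ofPred_eq, sub_zero, ← add_div, two_mul]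
  rw [e] at h1
  rw [c.vol_K, mul_one] at h2
  have h3 : ((1 : ℝ) / 2) ^ n ≤ c.cnt (fun a => |β a| ≤ R / 4 ^ n) ^ (2 * n) := by
    rw [pow_mul]
    exact pow_le_pow_left₀ (by norm_num) (by nlinarith) n
  have hD0 : (0 : ℝ) < D := by exact_mod_cast hD
  have h5 : 12 * (2 * R / 4 ^ n) * D / β z ≤ 48 * D / 4 ^ n := by
    rw [div_le_iff₀ hb]
    calc 12 * (2 * R / 4 ^ n) * D = 48 * D / 4 ^ n * (R / 2) := by ring
      _ ≤ _ := mul_le_mul_of_nonneg_left hβ (by positivity)
  have h6 : ((1 : ℝ) / 2) ^ n = 2 ^ n / 4 ^ n := by rw [← div_pow]; norm_num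
  have h7 : (48 * D : ℝ) / 4 ^ n < 2 ^ n / 4 ^ n := div_lt_div_of_pos_right hn (by positivity)
  linarith

end Pool.Agent.P.MP_61d55c_co.SG
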