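import Pool.Agent.P.MP_61d55c_co.SG.Iface

/-! Lifting a strictly antipodal set to a symmetric configuration one dimension higher. -/

set_option autoImplicit false

namespace Pool.Agent.P.MP_61d55c_co.SG

open MeasureTheory Set
open scoped Classical Pointwise

/-- A family of forms bounded by one on a symmetric set gives a configuration. -/
theorem lift_cfg {D : ℕ} {κ : Type} [Fintype κ] (b : κ → V D →L[ℝ] ℝ) (A : Finset (V D))
    (bdd : ∃ ρ : ℝ, ∀ y, (∀ j, |b j y| < 1) → ‖y‖ ≤ ρ) (le : ∀ a ∈ A, ∀ j, |b j a| ≤ 1)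
    (sym : ∀ a ∈ A, -a ∈ A) (it : κ) (top : ∀ a ∈ A, b it a = 1 ∨ b it a = -1)
    (strict : ∀ a ∈ A, ∀ a' ∈ A, a ≠ a' → b it a = b it a' →
      ∃ j, b j a = 1 ∧ b j a' = -1 ∧ ∀ z ∈ A, b j z = 1 → z = a ∨ z = -a') :
    ∃ c : Cfg D, c.A = A := by
  have hne : Nonempty (κ × Bool) := ⟨(it, true)⟩
  obtain ⟨k, hk⟩ : ∃ k, Fintype.card (κ × Bool) = k + 1 :=
    Nat.exists_eq_succ_of_ne_zero Fintype.card_ne_zero
  let e : κ × Bool ≃ Fin (k + 1) := Fintype.equivFinOfCardEq hk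
  let g : κ × Bool → V D →L[ℝ] ℝ := fun x => if x.2 then b x.1 else -b x.1
  let u : Fin (k + 1) → V D →L[ℝ] ℝ := fun i => g (e.symm i)
  have ut : ∀ j y, u (e (j, true)) y = b j y := fun j y => by simp [u, g]
  have uf : ∀ j y, u (e (j, false)) y = -b j y := fun j y => by simp [u, g]
  have uc : ∀ i, ∃ j, i = e (j, true) ∨ i = e (j, false) := fun i => by
    obtain ⟨⟨j, s⟩, rfl⟩ := e.surjective i
    cases s
    · exact ⟨j, Or.inr rfl⟩
    · exact ⟨j, Or.inl rfl⟩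
  obtain ⟨ρ, hρ⟩ := bdd
  have hb : ∀ y, (∀ i, u i y < 1) → ‖y‖ ≤ ρ := fun y hy => hρ y fun j => by
    have h1 := hy (e (j, true))
    have h2 := hy (e (j, false))
    rw [ut] at h1
    rw [uf] at h2
    exact abs_lt.2 ⟨by linarith, h1⟩
  have ho : IsOpen {y : V D | ∀ i, u i y < 1} := by
    rw [setOf_forall]
    exact isOpen_iInter_of_finite fun i => isOpen_lt (u i).continuous continuous_const
  have h0 : volume {y : V D | ∀ i, u i y < 1} ≠ 0 :=
    (ho.measure_pos volume ⟨0, fun i => by simp⟩).ne'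
  have h1 : volume {y : V D | ∀ i, u i y < 1} ≠ ⊤ :=
    ((Metric.isBounded_closedBall (x := (0 : V D)) (r := ρ)).subset fun y hy =>
      mem_closedBall_zero_iff.2 (hb y hy)).measure_lt_top.ne
  refine ⟨⟨k, u, (volume {y : V D | ∀ i, u i y < 1})⁻¹ • volume,
    Measure.IsAddHaarMeasure.smul _ (ENNReal.inv_ne_zero.2 h1) (ENNReal.inv_ne_top.2 h0),
    fun i => ?_, ⟨ρ, hb⟩, ?_, A, fun a ha i => ?_, sym, fun a ha a' ha' hn => ?_,
    e (it, true), fun a ha => ?_, fun a ha a' ha' hn he => ?_⟩, rfl⟩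
  · obtain ⟨j, rfl | rfl⟩ := uc i
    · exact ⟨e (j, false), fun y => by rw [ut, uf]⟩
    · exact ⟨e (j, true), fun y => by rw [ut, uf, neg_neg]⟩
  · rw [Measure.smul_apply, smul_eq_mul, ENNReal.inv_mul_cancel h0 h1]
  · obtain ⟨j, rfl | rfl⟩ := uc i
    · rw [ut]; exact (abs_le.1 (le a ha j)).2
    · rw [uf]; linarith [(abs_le.1 (le a ha j)).1]
  · by_cases he : b it a = b it a'
    · obtain ⟨j, e1, e2, -⟩ := strict a ha a' ha' hn he
      exact ⟨e (j, true), by rw [ut, e1], by rw [ut, e2]⟩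
    · rcases top a ha with e1 | e1 <;> rcases top a' ha' with e2 | e2
      · exact absurd (e1.trans e2.symm) he
      · exact ⟨e (it, true), by rw [ut, e1], by rw [ut, e2]⟩
      · exact ⟨e (it, false), by rw [uf, e1, neg_neg], by rw [uf, e2]⟩
      · exact absurd (e1.trans e2.symm) he
  · rw [ut]; exact top a ha
  · rw [ut, ut] at he
    obtain ⟨j, e1, e2, e3⟩ := strict a ha a' ha' hn he
    exact ⟨e (j, true), by rw [ut, e1], by rw [ut, e2], fun z hz h => e3 z hz (by rwa [ut] at h)⟩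

/-- Dropping the first coordinate. -/
noncomputable def lift_T (d : ℕ) : V (d + 1) →ₗ[ℝ] EuclideanSpace ℝ (Fin d) :=
  (WithLp.linearEquiv 2 ℝ (Fin d → ℝ)).symm.toLinearMap ∘ₗ LinearMap.funLeft ℝ ℝ Fin.succ

/-- The lift to height one. -/
def lift_L {d : ℕ} (p : EuclideanSpace ℝ (Fin d)) : V (d + 1) := Fin.cons 1 p.ofLp

theorem lift_TL {d : ℕ} (p : EuclideanSpace ℝ (Fin d)) : lift_T d (lift_L p) = p := by
  ext i
  simp [lift_T, lift_L]

theorem lift_L0 {d : ℕ} (p : EuclideanSpace ℝ (Fin d)) : lift_L p 0 = 1 := rfl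

theorem lift_inj {d : ℕ} : Function.Injective (lift_L (d := d)) := fun p q h => by
  rw [← lift_TL p, h, lift_TL]

/-- The lifted form of a pair. -/
noncomputable def lift_F {d : ℕ} (f : EuclideanSpace ℝ (Fin d) →ₗ[ℝ] ℝ)
    (p q : EuclideanSpace ℝ (Fin d)) : V (d + 1) →L[ℝ] ℝ :=
  LinearMap.toContinuousLinearMap
    ((f p - f q)⁻¹ • ((2 : ℝ) • (f ∘ₗ lift_T d) - (f p + f q) • LinearMap.proj 0))

theorem lift_FL {d : ℕ} (f : EuclideanSpace ℝ (Fin d) →ₗ[ℝ] ℝ)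
    (p q r : EuclideanSpace ℝ (Fin d)) :
    lift_F f p q (lift_L r) = (2 * f r - (f p + f q)) / (f p - f q) := by
  simp [lift_F, lift_TL, lift_L0, div_eq_inv_mul]

theorem lift_val {a b x : ℝ} (h : b < a) (h1 : x ≤ a) (h2 : b ≤ x) :
    |(2 * x - (a + b)) / (a - b)| ≤ 1 ∧ ((2 * x - (a + b)) / (a - b) = 1 ↔ x = a) ∧
      ((2 * x - (a + b)) / (a - b) = -1 ↔ x = b) := by
  have h0 : 0 < a - b := sub_pos.2 h
  refine ⟨?_, ?_, ?_⟩
  · rw [abs_div, abs_of_pos h0, div_le_one h0, abs_le]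
    constructor <;> linarith
  · rw [div_eq_iff h0.ne']
    constructor <;> intro e <;> linarith
  · rw [div_eq_iff h0.ne']
    constructor <;> intro e <;> linarith

theorem p_LIFT (h : S_CORE) : S_LIFT := by
  intro d S hd hS
  choose! f hf using hS
  have key : ∀ p ∈ S, ∀ q ∈ S, p ≠ q → ∀ r ∈ S, |lift_F (f p q) p q (lift_L r)| ≤ 1 ∧
      (lift_F (f p q) p q (lift_L r) = 1 ↔ r = p) ∧
      (lift_F (f p q) p q (lift_L r) = -1 ↔ r = q) := by
    intro p hp q hq hn r hr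
    obtain ⟨h1, h2⟩ := hf p hp q hq hn
    have e1 : f p q r ≤ f p q p := by
      by_cases e : r = p
      · rw [e]
      · exact (h1 r hr e).le
    have e2 : f p q q ≤ f p q r := by
      by_cases e : r = q
      · rw [e]
      · exact (h2 r hr e).le
    obtain ⟨v1, v2, v3⟩ := lift_val (h2 p hp hn) e1 e2
    rw [lift_FL, v2, v3]
    exact ⟨v1, ⟨fun e => by_contra fun n => (h1 r hr n).ne e, fun e => by rw [e]⟩,
      ⟨fun e => by_contra fun n => (h2 r hr n).ne' e, fun e => by rw [e]⟩⟩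
  have key0 : ∀ p ∈ S, ∀ q ∈ S, ∀ r ∈ S, |lift_F (f p q) p q (lift_L r)| ≤ 1 := by
    intro p hp q hq r hr
    by_cases hn : p = q
    · rw [lift_FL, hn, sub_self, div_zero, abs_zero]; exact zero_le_one
    · exact (key p hp q hq hn r hr).1
  obtain ⟨ρ, hρ, hρ'⟩ : ∃ ρ : ℝ, 0 < ρ ∧ ∀ p ∈ S, ‖lift_L p‖ ≤ ρ :=
    ⟨1 + ∑ p ∈ S, ‖lift_L p‖, by positivity, fun p hp => by
      have := Finset.single_le_sum (f := fun p => ‖lift_L p‖) (fun _ _ => norm_nonneg _) hp
      linarith⟩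
  let A : Finset (V (d + 1)) := S.image lift_L ∪ S.image fun p => -lift_L p
  have hA : ∀ a, a ∈ A ↔ ∃ p ∈ S, a = lift_L p ∨ a = -lift_L p := fun a => by
    simp only [A, Finset.mem_union, Finset.mem_image]
    constructor
    · rintro (⟨p, hp, rfl⟩ | ⟨p, hp, rfl⟩)
      · exact ⟨p, hp, Or.inl rfl⟩
      · exact ⟨p, hp, Or.inr rfl⟩
    · rintro ⟨p, hp, rfl | rfl⟩
      · exact Or.inl ⟨p, hp, rfl⟩
      · exact Or.inr ⟨p, hp, rfl⟩
  let b : (S × S) ⊕ Option (Fin (d + 1)) → V (d + 1) →L[ℝ] ℝ := fun x =>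
    match x with
    | Sum.inl x => lift_F (f x.1 x.2) x.1 x.2
    | Sum.inr none => ContinuousLinearMap.proj 0
    | Sum.inr (some i) => ρ⁻¹ • ContinuousLinearMap.proj i
  have b0 : ∀ y, b (Sum.inr none) y = y 0 := fun y => rfl
  have b1 : ∀ i y, b (Sum.inr (some i)) y = ρ⁻¹ * y i := fun i y => rfl
  have b2 : ∀ p (hp : p ∈ S) q (hq : q ∈ S) y,
      b (Sum.inl (⟨p, hp⟩, ⟨q, hq⟩)) y = lift_F (f p q) p q y := fun _ _ _ _ _ => rfl
  have hle : ∀ r ∈ S, ∀ j, |b j (lift_L r)| ≤ 1 := by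
    rintro r hr (⟨⟨p, hp⟩, ⟨q, hq⟩⟩ | _ | i)
    · exact key0 p hp q hq r hr
    · rw [b0, lift_L0, abs_one]
    · rw [b1, abs_mul, abs_of_pos (inv_pos.2 hρ), inv_mul_le_iff₀ hρ, mul_one]
      exact (norm_le_pi_norm (lift_L r) i).trans (hρ' r hr)
  have hz : ∀ p ∈ S, ∀ q ∈ S, p ≠ q → ∀ z ∈ A, lift_F (f p q) p q z = 1 →
      z = lift_L p ∨ z = -lift_L q := by
    intro p hp q hq hn z hz e
    obtain ⟨r, hr, rfl | rfl⟩ := (hA z).1 hz
    · exact Or.inl (by rw [(key p hp q hq hn r hr).2.1.1 e])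
    · rw [map_neg, neg_eq_iff_eq_neg] at e
      exact Or.inr (by rw [(key p hp q hq hn r hr).2.2.1 e])
  obtain ⟨c, hc⟩ := lift_cfg b A ⟨ρ, fun y hy => (pi_norm_le_iff_of_nonneg hρ.le).2 fun i => by
      have := hy (Sum.inr (some i))
      rw [b1, abs_mul, abs_of_pos (inv_pos.2 hρ), inv_mul_lt_iff₀ hρ, mul_one] at this
      exact this.le⟩
    (fun a ha j => by
      obtain ⟨r, hr, rfl | rfl⟩ := (hA a).1 ha
      · exact hle r hr j
      · rw [map_neg, abs_neg]; exact hle r hr j)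
    (fun a ha => by
      obtain ⟨r, hr, rfl | rfl⟩ := (hA a).1 ha
      · exact (hA _).2 ⟨r, hr, Or.inr rfl⟩
      · exact (hA _).2 ⟨r, hr, Or.inl (neg_neg _)⟩)
    (Sum.inr none)
    (fun a ha => by
      obtain ⟨r, hr, rfl | rfl⟩ := (hA a).1 ha
      · exact Or.inl rfl
      · exact Or.inr (by rw [map_neg, b0, lift_L0]))
    (fun a ha a' ha' hn he => by
      obtain ⟨p, hp, rfl | rfl⟩ := (hA a).1 ha <;> obtain ⟨q, hq, rfl | rfl⟩ := (hA a').1 ha'
      · have n : p ≠ q := fun e => hn (by rw [e])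
        exact ⟨Sum.inl (⟨p, hp⟩, ⟨q, hq⟩), (key p hp q hq n p hp).2.1.2 rfl,
          (key p hp q hq n q hq).2.2.2 rfl, fun z h1 h2 => hz p hp q hq n z h1 h2⟩
      · rw [map_neg, b0, b0, lift_L0, lift_L0] at he
        norm_num at he
      · rw [map_neg, b0, b0, lift_L0, lift_L0] at he
        norm_num at he
      · have n : q ≠ p := fun e => hn (by rw [e])
        refine ⟨Sum.inl (⟨q, hq⟩, ⟨p, hp⟩), ?_, ?_, fun z h1 h2 => ?_⟩
        · rw [map_neg, b2, (key q hq p hp n p hp).2.2.2 rfl, neg_neg]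
        · rw [map_neg, b2, (key q hq p hp n q hq).2.1.2 rfl]
        · rw [neg_neg]
          exact (hz q hq p hp n z h1 h2).symm)
  have hcard : A.card = 2 * S.card := by
    rw [Finset.card_union_of_disjoint, Finset.card_image_of_injective _ lift_inj,
      Finset.card_image_of_injective _ fun p q e => lift_inj (neg_injective e), two_mul]
    refine Finset.disjoint_left.2 fun a h1 h2 => ?_
    obtain ⟨p, -, rfl⟩ := Finset.mem_image.1 h1
    obtain ⟨q, -, e⟩ := Finset.mem_image.1 h2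
    have := congrFun e 0
    rw [Pi.neg_apply, lift_L0, lift_L0] at this
    norm_num at this
  have hcore := h (d + 1) c (by omega)
  rw [Cfg.th, hc, hcard] at hcore
  push_cast at hcore
  have h2 : (0 : ℝ) < 2 ^ d := by positivity
  have e : (2 * S.card : ℝ) / 2 ^ (d + 1) = S.card / 2 ^ d := by
    rw [pow_succ]; field_simp
  rw [e] at hcore
  rw [← div_le_iff₀ h2]
  linarith

end Pool.Agent.P.MP_61d55c_co.SG
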