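import Pool.Agent.P.MP_61d55c_co.SG.Iface

/-! The gauge is bounded by the cone volume average of the forms. -/

set_option autoImplicit false

namespace Pool.Agent.P.MP_61d55c_co.SG

open MeasureTheory Set
open scoped Classical

lemma lr_pow {D : ℕ} {s : ℝ} (h0 : 0 ≤ s) (h1 : s * D ≤ 1) : (1 + s) ^ D ≤ 1 + 2 * (s * D) := by
  have a : (1 + s) ^ D ≤ Real.exp (s * D) := by
    rw [mul_comm, Real.exp_nat_mul]
    exact pow_le_pow_left₀ (by linarith) (by linarith [Real.add_one_le_exp s]) D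
  have p : 0 ≤ s * D := by positivity
  have := (abs_le.1 (Real.abs_exp_sub_one_le (x := s * D) (by rwa [abs_of_nonneg p]))).2
  rw [abs_of_nonneg p] at this
  linarith

lemma lr_exit (P : ℕ → Prop) (h0 : P 0) (n : ℕ) (hn : ¬ P n) : ∃ m < n, P m ∧ ¬ P (m + 1) := by
  induction n with
  | zero => exact absurd h0 hn
  | succ n ih =>
    by_cases h : P n
    · exact ⟨n, n.lt_succ_self, h, hn⟩
    · obtain ⟨m, hm, e⟩ := ih h
      exact ⟨m, hm.trans n.lt_succ_self, e⟩

lemma lr_one {D : ℕ} (c : Cfg D) (g : V D) (j : Fin (c.k + 1)) (hD : 1 ≤ D)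
    (h1 : ∀ i, |c.u i g| ≤ 1) (hj : c.u j g = 1) : 1 ≤ 4 * D * ∑ i, c.w i * |c.u i g| := by
  have D0 : (0 : ℝ) < D := by exact_mod_cast hD
  obtain ⟨e, he⟩ : ∃ e : ℝ, e = 1 / (2 * D) := ⟨_, rfl⟩
  have e0 : 0 < e := he ▸ by positivity
  have eD : e * D = 1 / 2 := by rw [he]; field_simp
  set T : Set (V D) := {y | y ∈ c.K ∧ y + e • g ∉ c.K} with hT
  have fT : c.μ T ≠ ⊤ := c.fin_K fun _ h => h.1
  have a : c.μ.real c.K ≤ ∑ m ∈ Finset.range (4 * D), c.μ.real (pre 1 (((m : ℝ) * e) • g) T) := by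
    refine c.le_sum _ _ (fun y hy => ?_) fun m _ => c.fin_pre one_pos _ fT
    obtain ⟨m, hm, p1, p2⟩ := lr_exit (fun m => y + ((m : ℝ) * e) • g ∈ c.K) (by simpa using hy)
      (4 * D) fun h => by
        have := h j
        have := abs_lt.1 (c.abs_K hy j)
        simp only [map_add, map_smul, hj, smul_eq_mul] at *
        push_cast at *
        nlinarith
    refine mem_biUnion (Finset.mem_range.2 hm) ⟨by simpa using p1, fun h => p2 ?_⟩
    rw [one_smul, add_assoc, ← add_smul] at h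
    push_cast
    rwa [add_mul, one_mul]
  have b : c.μ.real T ≤ ∑ i ∈ Finset.univ, c.μ.real
      (pre 1 (e • g) ((c.E i ∩ c.KK (1 + e * |c.u i g|)) \ (c.E i ∩ c.K))) := by
    refine c.le_sum _ _ (fun y hy => ?_) fun i _ => c.fin_pre one_pos _
      (c.fin_KK (r := 1 + e * |c.u i g|) (by positivity) fun _ h => h.1.2)
    obtain ⟨i, hi⟩ := c.ex_E (y + e • g)
    refine mem_biUnion (Finset.mem_univ i) ?_
    simp only [pre, one_smul, mem_setOf_eq]
    refine ⟨⟨hi, c.N_lt.1 ?_⟩, fun h => hy.2 h.2⟩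
    rw [c.N_eq hi, map_add, map_smul, smul_eq_mul]
    linarith [hy.1 i, mul_le_mul_of_nonneg_left (le_abs_self (c.u i g)) e0.le]
  have d : ∀ i, c.μ.real (pre 1 (e • g) ((c.E i ∩ c.KK (1 + e * |c.u i g|)) \ (c.E i ∩ c.K))) ≤
      c.w i * |c.u i g| := fun i => by
    have s0 : 0 ≤ e * |c.u i g| := by positivity
    have sub : c.E i ∩ c.K ⊆ c.E i ∩ c.KK (1 + e * |c.u i g|) :=
      fun y h => ⟨h.1, fun l => (h.2 l).trans_le (by linarith)⟩
    rw [c.vol_pre one_pos, one_pow, div_one, measureReal_diff sub ((c.meas_E i).inter c.meas_K)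
      (c.fin_KK (r := 1 + e * |c.u i g|) (by positivity) inter_subset_right),
      c.vol_cone (c.cone_E i) (by positivity)]
    have e1 : e * |c.u i g| * D = |c.u i g| / 2 := by linear_combination |c.u i g| * eD
    have := lr_pow (D := D) s0 (by linarith [h1 i])
    have := mul_le_mul_of_nonneg_right this (c.w_nonneg i)
    rw [e1] at this
    unfold Cfg.w at *
    linarith
  simp only [c.vol_pre one_pos, one_pow, div_one, c.vol_K, Finset.sum_const, Finset.card_range,
    nsmul_eq_mul] at a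
  push_cast at a
  exact a.trans (mul_le_mul_of_nonneg_left (b.trans (Finset.sum_le_sum fun i _ => d i))
    (by positivity))

theorem p_LR : S_LR := by
  intro D c h j hD
  have S0 : 0 ≤ ∑ i, c.w i * |c.u i h| :=
    Finset.sum_nonneg fun i _ => mul_nonneg (c.w_nonneg i) (abs_nonneg _)
  rcases le_or_gt (c.N h) 0 with n0 | n0
  · exact ((c.le_N h j).trans n0).trans (by positivity)
  obtain ⟨l, hl⟩ := c.ex_E h
  have := lr_one c ((c.N h)⁻¹ • h) l hD (fun i => by
    obtain ⟨i', hi⟩ := c.neg i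
    have := c.le_N h i'
    rw [hi] at this
    rw [map_smul, smul_eq_mul, abs_mul, abs_of_pos (inv_pos.2 n0), inv_mul_le_iff₀ n0, mul_one]
    exact abs_le.2 ⟨by linarith, c.le_N h i⟩)
    (by rw [map_smul, smul_eq_mul, ← c.N_eq hl, inv_mul_cancel₀ n0.ne'])
  have e : ∑ i, c.w i * |c.u i ((c.N h)⁻¹ • h)| = (c.N h)⁻¹ * ∑ i, c.w i * |c.u i h| := by
    rw [Finset.mul_sum]
    refine Finset.sum_congr rfl fun i _ => ?_
    rw [map_smul, smul_eq_mul, abs_mul, abs_of_pos (inv_pos.2 n0)]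
    ring
  rw [e, mul_left_comm, le_inv_mul_iff₀ n0, mul_one] at this
  have D0 : (0 : ℝ) ≤ D := D.cast_nonneg
  nlinarith [c.le_N h j, mul_nonneg D0 S0]

end Pool.Agent.P.MP_61d55c_co.SG
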