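import Pool.Agent.P.MP_61d55c_co.SG.Iface

/-! The volume of a slab of a convex set. -/

set_option autoImplicit false

namespace Pool.Agent.P.MP_61d55c_co.SG

open MeasureTheory Set
open scoped Classical Pointwise

theorem ls_mem {D : ℕ} {l : ℝ} (hl : 0 < l) (z y : V D) :
    y = l • (l⁻¹ • y + (1 - l⁻¹) • z) + (1 - l) • z := by
  rw [smul_add, smul_smul, smul_smul, mul_inv_cancel₀ hl.ne', one_smul, add_assoc, ← add_smul,
    show l * (1 - l⁻¹) + (1 - l) = 0 by field_simp; ring, zero_smul, add_zero]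

theorem p_LS : S_LS := by
  intro D c W β z e hD hW hm hf hz hr he
  set r := β z with hr'
  set S := W ∩ {y | |β y| ≤ e} with hS
  have hD' : (1 : ℝ) ≤ D := by exact_mod_cast hD
  have hSm : MeasurableSet S := hm.inter (measurableSet_le (by fun_prop) measurable_const)
  set J := ⌊r / (6 * e * D)⌋₊ with hJ
  have hJ1 : (J : ℝ) ≤ r / (6 * e * D) := Nat.floor_le (by positivity)
  have hJ2 : r / (6 * e * D) < J + 1 := Nat.lt_floor_add_one _
  let lam : ℕ → ℝ := fun m => 1 - 3 * m * e / r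
  have h1 : ∀ m ∈ Finset.range (J + 1), 1 - 1 / (2 * D) ≤ lam m := fun m hm' => by
    have a1 : (m : ℝ) ≤ J := by exact_mod_cast Nat.lt_succ_iff.1 (Finset.mem_range.1 hm')
    have a2 : (m : ℝ) * (6 * e * D) ≤ r := (le_div_iff₀ (by positivity)).1 (a1.trans hJ1)
    have a3 : 3 * m * e / r ≤ 1 / (2 * D) := by
      rw [div_le_div_iff₀ hr (by positivity)]
      linarith
    simp only [lam]
    linarith
  have h0 : (1 : ℝ) / (2 * D) ≤ 1 / 2 := by
    rw [div_le_div_iff₀ (by positivity) (by positivity)]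
    linarith
  have h2 : ∀ m ∈ Finset.range (J + 1), 0 < lam m := fun m hm' => by linarith [h1 m hm']
  have h3 : ∀ m, lam m ≤ 1 := fun m => by
    have : 0 ≤ 3 * m * e / r := by positivity
    simp only [lam]
    linarith
  let T : ℕ → Set (V D) := fun m => pre (lam m)⁻¹ ((1 - (lam m)⁻¹) • z) S
  have h4 : ∀ m ∈ Finset.range (J + 1), ∀ y ∈ T m, y ∈ W ∧ |β y - 3 * m * e| ≤ e := by
    intro m hm' y hy
    have a1 := ls_mem (h2 m hm') z y
    obtain ⟨b1, b2⟩ : (lam m)⁻¹ • y + (1 - (lam m)⁻¹) • z ∈ S := hy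
    generalize (lam m)⁻¹ • y + (1 - (lam m)⁻¹) • z = x at a1 b1 b2
    refine ⟨a1 ▸ hW b1 hz (h2 m hm').le (by linarith [h3 m]) (by ring), ?_⟩
    have a2 : β y - 3 * m * e = lam m * β x := by
      rw [a1, map_add, map_smul, map_smul, smul_eq_mul, smul_eq_mul, ← hr']
      simp only [lam]
      field_simp
      ring
    rw [a2, abs_mul, abs_of_pos (h2 m hm')]
    have b3 : |β x| ≤ e := b2
    nlinarith [h3 m, abs_nonneg (β x), h2 m hm']
  have h5 := c.sum_le (Finset.range (J + 1)) T hf (fun m hm' y hy => (h4 m hm' y hy).1)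
    (fun m _ => meas_pre _ _ hSm) fun a ha b hb hab => disjoint_left.2 fun y y1 y2 => by
      have a1 := abs_le.1 (h4 a ha y y1).2
      have a2 := abs_le.1 (h4 b hb y y2).2
      rcases Nat.lt_or_gt_of_ne hab with h | h
      · have : (a : ℝ) + 1 ≤ b := by exact_mod_cast h
        nlinarith
      · have : (b : ℝ) + 1 ≤ a := by exact_mod_cast h
        nlinarith
  have hS0 : 0 ≤ c.μ.real S := measureReal_nonneg
  have h6 : ∀ m ∈ Finset.range (J + 1), c.μ.real S / 2 ≤ c.μ.real (T m) := fun m hm' => by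
    have a1 : c.μ.real (T m) = c.μ.real S * lam m ^ D := by
      simp only [T]
      rw [c.vol_pre (inv_pos.2 (h2 m hm')), inv_pow, div_inv_eq_mul]
    have a2 := one_add_mul_le_pow (a := -(1 / (2 * (D : ℝ)))) (by linarith) D
    have a3 : (1 + -(1 / (2 * (D : ℝ)))) ^ D ≤ lam m ^ D :=
      pow_le_pow_left₀ (by linarith) (by linarith [h1 m hm']) D
    have a4 : 1 + (D : ℝ) * -(1 / (2 * (D : ℝ))) = 1 / 2 := by field_simp; ring
    rw [a1]
    nlinarith
  have h7 := (Finset.sum_le_sum h6).trans h5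
  rw [Finset.sum_const, Finset.card_range, nsmul_eq_mul] at h7
  push_cast at h7
  have h8 : r < (J + 1) * (6 * e * D) := (div_lt_iff₀ (by positivity)).1 hJ2
  rw [div_mul_eq_mul_div, le_div_iff₀ hr]
  have h9 : 0 < 12 * e * D := by positivity
  nlinarith [mul_le_mul_of_nonneg_left h7 h9.le, mul_le_mul_of_nonneg_left h8.le hS0]

end Pool.Agent.P.MP_61d55c_co.SG
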