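import Pool.Agent.P.MP_61d55c_co.SG.Iface

/-! Partners of a point through a contraction. -/

set_option autoImplicit false

namespace Pool.Agent.P.MP_61d55c_co.SG

open MeasureTheory Set
open scoped Classical

theorem pa_good {D : ℕ} (c : Cfg D) {x : ℝ} {i : Fin (c.k + 1)} {a y : V D} (ha : a ∈ c.A)
    (hy : y ∈ c.H a) (h : y ∉ c.Xs x i) : 1 - x ≤ c.u i a ∨ c.u i a ≤ -1 + x := by
  have : 1 - x ≤ |c.u i a| := not_lt.1 fun e =>
    h (mem_biUnion (Finset.mem_coe.2 (Finset.mem_filter.2 ⟨ha, e⟩)) hy)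
  rcases le_abs.1 this with e | e
  · exact Or.inl e
  · exact Or.inr (by linarith)

theorem p_PA : S_PA := by
  intro D c x ε o v a y hx hε h2 hv hov ha hoa hy hn
  have hH : y ∈ c.H a := hy.1
  have hK : y ∈ c.K := c.H_sub ha hH
  have hc : |2 * c.u o y - c.u o a + 1| ≤ ε := by simpa [sub_eq_add_neg] using hy.2
  have hu : ∀ i, c.u i ((1 - ε) • y + -(ε • v)) = (1 - ε) * c.u i y - ε * c.u i v := fun i => by
    simp [sub_eq_add_neg]
  have hP : (1 - ε) • y + -(ε • v) ∈ c.K := fun i => by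
    have h1 : c.u i y < 1 := hK i
    have h3 := abs_le.1 (c.abs_A hv i)
    rw [hu]
    nlinarith
  have e1 := abs_lt.1 (c.abs_H hH o)
  have e2 := abs_le.1 hc
  have e3 := c.le a ha o
  obtain ⟨b, hb, hbH⟩ : ∃ b ∈ c.A, (1 - ε) • y + -(ε • v) ∈ c.H b := by
    by_contra h
    exact hn (Or.inl ⟨hP, fun e => h (by simpa using e)⟩)
  have hob : c.u o b ≤ -1 + x := by
    refine (pa_good c hb hbH fun e => hn (Or.inr e)).resolve_left fun e => ?_
    have := abs_lt.1 (c.abs_H hbH o)
    rw [hu] at this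
    nlinarith
  refine ⟨b, hb, hob, fun i hi => ?_⟩
  have ga := pa_good c ha hH fun e => hi (Or.inl (Or.inl e))
  have gb := pa_good c hb hbH fun e => hi (Or.inl (Or.inr e))
  have g0 : c.chi x o i = 0 → 3 * ε < |c.u i y| := fun e => not_le.1 fun e' =>
    hi (Or.inr ⟨e, hK, abs_le.2 ⟨by linarith, by linarith⟩, e'⟩)
  have a1 := abs_le.1 (c.abs_A ha i)
  have b1 := abs_le.1 (c.abs_A hb i)
  have v1 := abs_le.1 (c.abs_A hv i)
  have nb : 1 - x ≤ c.u o (-b) := by rw [map_neg]; linarith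
  rw [map_sub]
  unfold Cfg.chi at g0 ⊢
  split_ifs at g0 ⊢ with h1 h3
  · have f1 := ga.resolve_right (h1 a ha hoa)
    have f2 := h1 _ (c.sym b hb) nb
    rw [map_neg] at f2
    have f3 := gb.resolve_left fun e => f2 (by linarith)
    exact abs_le.2 ⟨by linarith, by linarith⟩
  · have f1 := ga.resolve_left (h3 a ha hoa)
    have f2 := h3 _ (c.sym b hb) nb
    rw [map_neg] at f2
    have f3 := gb.resolve_right fun e => f2 (by linarith)
    exact abs_le.2 ⟨by linarith, by linarith⟩
  · have f1 := lt_abs.1 (g0 rfl)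
    have f2 := abs_lt.1 (c.abs_H hH i)
    have f3 := abs_lt.1 (c.abs_H hbH i)
    rw [hu] at f3
    rcases ga with e | e
    · have f4 := f1.resolve_right fun e' => by linarith
      have f5 := gb.resolve_right fun e' => by nlinarith
      exact abs_le.2 ⟨by linarith, by linarith⟩
    · have f4 := f1.resolve_left fun e' => by linarith
      have f5 := gb.resolve_left fun e' => by nlinarith
      exact abs_le.2 ⟨by linarith, by linarith⟩

end Pool.Agent.P.MP_61d55c_co.SG
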