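import Pool.Agent.P.MP_61d55c_co.SG.Iface

set_option autoImplicit false

namespace Pool.Agent.P.MP_61d55c_co.SG

open MeasureTheory Set
open scoped Classical Pointwise

theorem pb_meas {D : ℕ} (c : Cfg D) (x : ℝ) (i : Fin (c.k + 1)) : MeasurableSet (c.Xs x i) :=
  Finset.measurableSet_biUnion _ fun a _ => c.meas_H a

theorem pb_sub {D : ℕ} (c : Cfg D) (x : ℝ) (i : Fin (c.k + 1)) : c.Xs x i ⊆ c.K :=
  iUnion₂_subset fun _ ha => c.H_sub (Finset.mem_filter.1 ha).1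

theorem pb_vol {D : ℕ} (c : Cfg D) (x : ℝ) (i : Fin (c.k + 1)) :
    c.μ.real (c.Xs x i) ≤ c.bad x i := by
  refine (c.le_sum _ c.H le_rfl fun a ha => c.fin_K (c.H_sub (Finset.mem_filter.1 ha).1)).trans
    (le_of_eq ?_)
  simp [c.vol_H, Cfg.bad, Cfg.cnt, div_eq_mul_inv]

theorem pb_slab {D : ℕ} (β : V D →L[ℝ] ℝ) (e : ℝ) : MeasurableSet {y | |β y| ≤ e} :=
  measurableSet_le (by fun_prop) (by fun_prop)

theorem pb_convex {D : ℕ} (β : V D →L[ℝ] ℝ) (e : ℝ) : Convex ℝ {y | |β y| ≤ e} := by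
  have : {y | |β y| ≤ e} = {y | -e ≤ β y} ∩ {y | β y ≤ e} := by
    ext y
    simp [abs_le]
  rw [this]
  exact (convex_halfSpace_ge β.toLinearMap.isLinear _).inter
    (convex_halfSpace_le β.toLinearMap.isLinear _)

theorem pb_third (hLS : S_LS) {D : ℕ} (c : Cfg D) {x ε : ℝ} (o i : Fin (c.k + 1)) {v : V D}
    (hD : 1 ≤ D) (hx : 0 < x) (hε : 2 * x ≤ ε) (h2 : ε ≤ 1 / 2) (hv : v ∈ c.A)
    (ho : 1 - x ≤ c.u o v) :
    c.μ.real {y | c.chi x o i = 0 ∧ y ∈ c.K ∧ |c.u o y| ≤ ε ∧ |c.u i y| ≤ 3 * ε}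
      ≤ 1728 * ε ^ 2 * D ^ 2 := by
  by_cases h0 : c.chi x o i = 0
  · have hD0 : (0 : ℝ) ≤ D := Nat.cast_nonneg D
    have e0 : 0 < ε := by linarith
    have h1 := h0
    unfold Cfg.chi at h1
    split_ifs at h1 with p1 p2
    · norm_num at h1
    · norm_num at h1
    push Not at p1 p2
    obtain ⟨a1, m1, o1, i1⟩ := p1
    obtain ⟨a2, m2, o2, i2⟩ := p2
    set W := c.K ∩ {y | |c.u o y| ≤ ε} with hW
    have e : {y | c.chi x o i = 0 ∧ y ∈ c.K ∧ |c.u o y| ≤ ε ∧ |c.u i y| ≤ 3 * ε}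
        = W ∩ {y | |c.u i y| ≤ 3 * ε} := by
      ext y
      exact ⟨fun h => ⟨⟨h.2.1, h.2.2.1⟩, h.2.2.2⟩, fun h => ⟨h0, h.1.1, h.1.2, h.2⟩⟩
    have z1 : ∀ j, c.u j ((3 / 8 : ℝ) • (a2 - a1)) = 3 / 8 * (c.u j a2 - c.u j a1) := by
      intro j
      simp
    have z2 : ∀ j, c.u j ((3 / 4 : ℝ) • v) = 3 / 4 * c.u j v := by
      intro j
      simp
    have b1 := hLS D c W (c.u i) ((3 / 8 : ℝ) • (a2 - a1)) (3 * ε) hD
      (c.convex_K.inter (pb_convex _ _)) (c.meas_K.inter (pb_slab _ _))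
      (c.fin_K inter_subset_left)
      ⟨fun j => by
        have := abs_le.1 (c.abs_A m1 j)
        have := abs_le.1 (c.abs_A m2 j)
        rw [z1]
        linarith, by
        have := c.le _ m1 o
        have := c.le _ m2 o
        rw [mem_ofPred_eq, z1, abs_le]
        constructor <;> linarith⟩
      (by rw [z1]; linarith) (by linarith)
    have b2 := hLS D c c.K (c.u o) ((3 / 4 : ℝ) • v) ε hD c.convex_K c.meas_K (c.fin_K le_rfl)
      (fun j => by
        have := c.le _ hv j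
        rw [z2]
        linarith) (by rw [z2]; linarith) e0
    rw [c.vol_K, mul_one, z2] at b2
    rw [z1] at b1
    have c1 : 12 * (3 * ε) * D / (3 / 8 * (c.u i a2 - c.u i a1)) ≤ 72 * ε * D := by
      rw [div_le_iff₀ (by linarith)]
      nlinarith [mul_nonneg e0.le hD0]
    have c2 : 12 * ε * D / (3 / 4 * c.u o v) ≤ 24 * ε * D := by
      rw [div_le_iff₀ (by linarith)]
      nlinarith [mul_nonneg e0.le hD0]
    rw [e]
    refine b1.trans ((mul_le_mul c1 (b2.trans c2) measureReal_nonneg (by positivity)).trans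
      (le_of_eq ?_))
    ring
  · simp only [h0, false_and, ofPred_false, measureReal_empty]
    positivity

theorem p_PB (hLS : S_LS) : S_PB := by
  intro D c x ε o i v hD hx hε hεD hv ho
  have hD1 : (1 : ℝ) ≤ D := by exact_mod_cast hD
  have e0 : 0 < ε := by linarith
  have h2 : ε ≤ 1 / 2 := by nlinarith
  have hr : 0 < 1 - ε := by linarith
  have half : 1 / 2 ≤ (1 - ε) ^ D := by
    have := one_add_mul_le_pow (a := -ε) (by linarith) D
    rw [← sub_eq_add_neg] at this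
    linarith
  have dbl : ∀ S : Set (V D), c.μ.real (pre (1 - ε) (-(ε • v)) S) ≤ 2 * c.μ.real S := by
    intro S
    rw [c.vol_pre hr, div_le_iff₀ (by positivity)]
    nlinarith [(measureReal_nonneg : 0 ≤ c.μ.real S)]
  have mT : MeasurableSet
      {y | c.chi x o i = 0 ∧ y ∈ c.K ∧ |c.u o y| ≤ ε ∧ |c.u i y| ≤ 3 * ε} :=
    (MeasurableSet.const _).inter (c.meas_K.inter ((pb_slab _ _).inter (pb_slab _ _)))
  have sU : c.U ∪ c.Xs x o ⊆ c.K := union_subset sdiff_subset (pb_sub c x o)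
  refine ⟨((pb_meas c x i).union (meas_pre _ _ (pb_meas c x i))).union mT, ?_, ?_,
    c.fin_pre hr _ (c.fin_K sU), ?_⟩
  · exact measure_union_ne_top (measure_union_ne_top (c.fin_K (pb_sub c x i))
      (c.fin_pre hr _ (c.fin_K (pb_sub c x i)))) (c.fin_K fun y hy => hy.2.1)
  · have t := pb_third hLS c o i hD hx hε h2 hv ho
    have u1 := measureReal_union_le (μ := c.μ) (c.Xs x i ∪ pre (1 - ε) (-(ε • v)) (c.Xs x i))
      {y | c.chi x o i = 0 ∧ y ∈ c.K ∧ |c.u o y| ≤ ε ∧ |c.u i y| ≤ 3 * ε}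
    have u2 := measureReal_union_le (μ := c.μ) (c.Xs x i) (pre (1 - ε) (-(ε • v)) (c.Xs x i))
    have u3 := dbl (c.Xs x i)
    have u4 := pb_vol c x i
    unfold Cfg.XX
    linarith
  · have u1 := measureReal_union_le (μ := c.μ) c.U (c.Xs x o)
    have u3 := dbl (c.U ∪ c.Xs x o)
    have u4 := pb_vol c x o
    rw [c.vol_U] at u1
    linarith

end Pool.Agent.P.MP_61d55c_co.SG
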