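import Pool.Agent.P.MP_61d55c_co.SG.Iface

/-! Few points have no partner. -/

set_option autoImplicit false

namespace Pool.Agent.P.MP_61d55c_co.SG

open MeasureTheory Set
open scoped Classical

lemma pc_markov {D : ℕ} (c : Cfg D) (X : Fin (c.k + 1) → Set (V D)) (h1 : ∀ i, MeasurableSet (X i))
    (h2 : ∀ i, c.μ (X i) ≠ ⊤) (t : ℝ) :
    t * c.μ.real {y | t ≤ ∑ i, (X i).indicator (fun _ => c.w i) y} ≤
      ∑ i, c.w i * c.μ.real (X i) := by
  have hi : ∀ i, Integrable ((X i).indicator fun _ => c.w i) c.μ := fun i =>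
    (integrableOn_const (h2 i)).integrable_indicator (h1 i)
  refine (mul_meas_ge_le_integral_of_nonneg (Filter.Eventually.of_forall fun y =>
    Finset.sum_nonneg fun i _ => indicator_nonneg (fun _ _ => c.w_nonneg i) y)
    (integrable_finset_sum _ fun i _ => hi i) t).trans (le_of_eq ?_)
  rw [integral_finset_sum _ fun i _ => hi i]
  exact Finset.sum_congr rfl fun i _ => by rw [integral_indicator_const _ (h1 i), smul_eq_mul, mul_comm]

lemma pc_chi {D : ℕ} (c : Cfg D) (x : ℝ) (o i : Fin (c.k + 1)) : |c.chi x o i| ≤ 2 := by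
  unfold Cfg.chi
  split_ifs <;> simp

lemma pc_cnt {D : ℕ} (c : Cfg D) (p : V D → Prop) {S W : Set (V D)} (hS : MeasurableSet S)
    (hK : S ⊆ c.K) (hW : c.μ W ≠ ⊤) (h : ∀ a ∈ c.A, p a → pre 2 (-a) S ⊆ W) :
    c.cnt p * c.μ.real S ≤ c.μ.real W := by
  have s := c.sum_le (c.A.filter p) (fun a => pre 2 (-a) S) hW
    (fun a ha => h a (Finset.mem_filter.1 ha).1 (Finset.mem_filter.1 ha).2)
    (fun a _ => meas_pre _ _ hS)
    fun a ha b hb e => (c.disj_H (Finset.mem_filter.1 ha).1 (Finset.mem_filter.1 hb).1 e).mono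
      (fun y h => @hK ((2 : ℝ) • y + -a) h) fun y h => @hK ((2 : ℝ) • y + -b) h
  simp only [c.vol_pre two_pos, Finset.sum_const, nsmul_eq_mul] at s
  rwa [Cfg.cnt, div_mul_eq_mul_div, mul_div_assoc]

theorem p_PC (hPA : S_PA) (hPB : S_PB) : S_PC := by
  intro D c x ε κ o v hD hx hε hεD hκ hv hov
  have D1 : (1 : ℝ) ≤ D := by exact_mod_cast hD
  have κ0 : 0 < κ := by linarith
  have ε2 : ε ≤ 1 / 2 := by nlinarith
  have hB := fun i => hPB D c x ε o i v hD hx hε hεD hv hov
  set Y := pre (1 - ε) (-(ε • v)) (c.U ∪ c.Xs x o) with hY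
  set M : Set (V D) := {y | κ / 8 ≤ ∑ i, (c.XX x ε v o i).indicator (fun _ => c.w i) y} with hM
  have fM : c.μ M ≠ ⊤ := by
    refine ne_top_of_le_ne_top (measure_biUnion_ne_top (finite_univ (α := Fin (c.k + 1)))
      fun i _ => (hB i).2.1) (measure_mono fun y hy => ?_)
    by_contra h
    simp only [mem_iUnion, not_exists] at h
    have : κ / 8 ≤ ∑ i, (c.XX x ε v o i).indicator (fun _ => c.w i) y := hy
    rw [Finset.sum_eq_zero fun i _ => indicator_of_notMem (h i (mem_univ i)) _] at this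
    linarith
  have mk := pc_markov c _ (fun i => (hB i).1) (fun i => (hB i).2.1) (κ / 8)
  have mk2 : ∑ i, c.w i * c.μ.real (c.XX x ε v o i) ≤
      3 * ∑ i, c.w i * c.bad x i + 1728 * ε ^ 2 * D ^ 2 := by
    refine (Finset.sum_le_sum fun i _ =>
      mul_le_mul_of_nonneg_left (hB i).2.2.1 (c.w_nonneg i)).trans (le_of_eq ?_)
    simp only [mul_add, Finset.sum_add_distrib, ← Finset.sum_mul, c.sum_w, Finset.mul_sum]
    congr 1
    · exact Finset.sum_congr rfl fun i _ => by ring
    · ring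
  have mC : MeasurableSet (c.Cap ε o) :=
    c.meas_K.inter (measurableSet_le (by fun_prop) (by fun_prop))
  have s := pc_cnt c (fun a => 1 - x ≤ c.u o a ∧ ¬ c.Mat x κ o a) mC inter_subset_left
    (W := Y ∪ M) (measure_union_ne_top (hB o).2.2.2.1 fM)
    (fun a aA ⟨a1, a2⟩ y hy => by
      by_cases h : y ∈ Y
      · exact Or.inl h
      obtain ⟨a', a'A, b1, b2⟩ := hPA D c x ε o v a y hx hε ε2 hv hov aA a1 hy h
      refine Or.inr (show κ / 8 ≤ _ from le_of_not_gt fun lt => a2 ⟨a', a'A, b1, ?_⟩)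
      have : ∑ i, c.w i * |c.u i (a - a') - c.chi x o i| ≤
          ∑ i, (c.w i * (2 * x) + 4 * (c.XX x ε v o i).indicator (fun _ => c.w i) y) := by
        refine Finset.sum_le_sum fun i _ => ?_
        have w0 := c.w_nonneg i
        by_cases e : y ∈ c.XX x ε v o i
        · rw [indicator_of_mem e]
          have : |c.u i (a - a') - c.chi x o i| ≤ 4 := by
            have := abs_le.1 (c.abs_A aA i)
            have := abs_le.1 (c.abs_A a'A i)
            have := abs_le.1 (pc_chi c x o i)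
            rw [map_sub]
            exact abs_le.2 ⟨by linarith, by linarith⟩
          nlinarith [mul_le_mul_of_nonneg_left this w0, mul_nonneg w0 hx.le]
        · rw [indicator_of_notMem e]
          linarith [mul_le_mul_of_nonneg_left (b2 i e) w0]
      rw [Finset.sum_add_distrib, ← Finset.sum_mul, c.sum_w, ← Finset.mul_sum] at this
      linarith)
  have s2 := measureReal_union_le (μ := c.μ) Y M
  have s3 : c.μ.real M ≤ 8 / κ * (3 * ∑ i, c.w i * c.bad x i + 1728 * ε ^ 2 * D ^ 2) := by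
    rw [div_mul_eq_mul_div, le_div_iff₀ κ0]
    linarith
  have := (hB o).2.2.2.2
  linarith

end Pool.Agent.P.MP_61d55c_co.SG
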