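import Pool.Agent.P.MP_61d55c_co.SG.Iface

/-! Step S2: a form that splits both halves. -/

set_option autoImplicit false

namespace Pool.Agent.P.MP_61d55c_co.SG

open MeasureTheory Set
open scoped Classical Pointwise

/-- indicator -/
noncomputable def s2_I (p : Prop) : ℝ := if p then 1 else 0

theorem s2_I0 (p : Prop) : 0 ≤ s2_I p := by
  unfold s2_I
  split_ifs <;> norm_num

theorem s2_I1 {p : Prop} (h : p) : s2_I p = 1 := if_pos h

theorem s2_pt {x s t : ℝ} (hx : 0 ≤ x) (hs : |s| ≤ 1) (ht : |t| ≤ 1) :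
    |s - t| ≤ x + (2 * s2_I (|s| < 1 - x) + 2 * s2_I (|t| < 1 - x) +
      2 * (s2_I (1 - x ≤ s) * s2_I (t ≤ -1 + x)) + 2 * (s2_I (s ≤ -1 + x) * s2_I (1 - x ≤ t))) := by
  have n1 := s2_I0 (|s| < 1 - x)
  have n2 := s2_I0 (|t| < 1 - x)
  have n3 := mul_nonneg (s2_I0 (1 - x ≤ s)) (s2_I0 (t ≤ -1 + x))
  have n4 := mul_nonneg (s2_I0 (s ≤ -1 + x)) (s2_I0 (1 - x ≤ t))
  obtain ⟨s1, s2⟩ := abs_le.1 hs
  obtain ⟨t1, t2⟩ := abs_le.1 ht
  have h2 : |s - t| ≤ 2 := abs_le.2 ⟨by linarith, by linarith⟩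
  by_cases h : |s| < 1 - x
  · linarith [s2_I1 h]
  by_cases h' : |t| < 1 - x
  · linarith [s2_I1 h']
  rcases le_abs.1 (not_lt.1 h) with a | a <;> rcases le_abs.1 (not_lt.1 h') with b | b
  · have : |s - t| ≤ x := abs_le.2 ⟨by linarith, by linarith⟩
    linarith
  · have : s2_I (1 - x ≤ s) * s2_I (t ≤ -1 + x) = 1 := by
      rw [s2_I1 a, s2_I1 (by linarith : t ≤ -1 + x), one_mul]
    linarith
  · have : s2_I (s ≤ -1 + x) * s2_I (1 - x ≤ t) = 1 := by
      rw [s2_I1 b, s2_I1 (by linarith : s ≤ -1 + x), one_mul]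
    linarith
  · have : |s - t| ≤ x := abs_le.2 ⟨by linarith, by linarith⟩
    linarith

theorem s2_dbl {α : Type} (T : Finset α) (β π μ : α → ℝ) :
    ∑ a ∈ T, ∑ b ∈ T, (2 * β a + 2 * β b + 2 * (π a * μ b) + 2 * (μ a * π b)) =
      4 * T.card * ∑ a ∈ T, β a + 4 * ((∑ a ∈ T, π a) * ∑ a ∈ T, μ a) := by
  simp only [Finset.sum_add_distrib, Finset.sum_const, nsmul_eq_mul, ← Finset.mul_sum,
    ← Finset.sum_mul]
  ring

theorem s2_off {α : Type} (T : Finset α) (r : ℝ) :
    ∑ a ∈ T, ∑ b ∈ T, s2_I (a ≠ b) * r = T.card * (T.card - 1) * r := by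
  have h : ∀ a ∈ T, ∑ b ∈ T, s2_I (a ≠ b) * r = (T.card - 1) * r := fun a ha => by
    have e : ∀ b, s2_I (a ≠ b) = 1 - if a = b then 1 else 0 := fun b => by
      unfold s2_I
      by_cases h : a = b <;> simp [h]
    rw [← Finset.sum_mul]
    simp only [e, Finset.sum_sub_distrib, Finset.sum_const, nsmul_eq_mul, mul_one,
      Finset.sum_ite_eq, if_pos ha]
  rw [Finset.sum_congr rfl h, Finset.sum_const, nsmul_eq_mul, mul_assoc]

theorem s2_mono {D : ℕ} (c : Cfg D) {p q : V D → Prop} (h : ∀ a, p a → q a) :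
    c.cnt p ≤ c.cnt q := by
  unfold Cfg.cnt
  refine div_le_div_of_nonneg_right (Nat.cast_le.2 (Finset.card_le_card fun a ha => ?_))
    (by positivity)
  rw [Finset.mem_filter] at ha ⊢
  exact ⟨ha.1, h a ha.2⟩

theorem s2_one {D : ℕ} (c : Cfg D) (p : V D → Prop) : c.cnt p ≤ 1 := by
  have h := c.th_nonneg
  unfold Cfg.th at h
  unfold Cfg.cnt
  have h1 : ((c.A.filter p).card : ℝ) ≤ c.A.card := Nat.cast_le.2 (Finset.card_filter_le _ _)
  have h2 := div_le_div_of_nonneg_right h1 (by positivity : (0 : ℝ) ≤ 2 ^ D)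
  linarith

theorem s2_sum {D : ℕ} (c : Cfg D) (q p : V D → Prop) :
    ∑ a ∈ c.A.filter q, s2_I (p a) = 2 ^ D * c.cnt fun a => q a ∧ p a := by
  unfold s2_I Cfg.cnt
  rw [Finset.sum_boole, Finset.filter_filter, mul_div_cancel₀ _ (by positivity)]
  congr!

theorem s2_half {D : ℕ} (c : Cfg D) : 1 - c.th ≤ 2 * c.cnt fun a => c.u c.it a = 1 := by
  have h1 : c.cnt (fun a => c.u c.it a = -1) ≤ c.cnt fun a => c.u c.it a = 1 := by
    rw [← c.cnt_neg fun a => c.u c.it a = 1]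
    exact s2_mono c fun a ha => by rw [map_neg, ha, neg_neg]
  have h2 : c.A.card ≤ (c.A.filter fun a => c.u c.it a = 1).card +
      (c.A.filter fun a => c.u c.it a = -1).card :=
    le_trans (Finset.card_le_card fun a ha => Finset.mem_union.2 ((c.top a ha).imp
      (fun h => Finset.mem_filter.2 ⟨ha, h⟩) fun h => Finset.mem_filter.2 ⟨ha, h⟩))
      (Finset.card_union_le _ _)
  have h3 : (c.A.card : ℝ) / 2 ^ D ≤ c.cnt (fun a => c.u c.it a = 1) +
      c.cnt fun a => c.u c.it a = -1 := by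
    unfold Cfg.cnt
    rw [← add_div]
    refine div_le_div_of_nonneg_right ?_ (by positivity)
    have h4 : (c.A.card : ℝ) ≤ ((c.A.filter fun a => c.u c.it a = 1).card : ℝ) +
      ((c.A.filter fun a => c.u c.it a = -1).card : ℝ) := by exact_mod_cast h2
    convert h4
  unfold Cfg.th
  linarith

theorem p_S2 (hLR : S_LR) : S_S2 := by
  intro D c x d l hD hth hx hx1 hd hl hld
  have hD' : (3 : ℝ) ≤ D := by exact_mod_cast hD
  have hQ : (8 : ℝ) ≤ 2 ^ D := by
    calc (8 : ℝ) = 2 ^ 3 := by norm_num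
      _ ≤ _ := pow_le_pow_right₀ one_le_two hD
  set T := c.A.filter fun a => c.u c.it a = 1 with hT
  set t := c.cnt fun a => c.u c.it a = 1 with ht
  have hn : (T.card : ℝ) = 2 ^ D * t := by
    rw [ht]
    unfold Cfg.cnt
    rw [mul_div_cancel₀ _ (by positivity)]
  have ht1 : 3 / 8 ≤ t := by linarith [s2_half c]
  set P := fun i => c.cnt fun a => c.u c.it a = 1 ∧ 1 - x ≤ c.u i a with hP
  set M := fun i => c.cnt fun a => c.u c.it a = 1 ∧ c.u i a ≤ -1 + x with hM
  set F := fun (i : Fin (c.k + 1)) (a b : V D) => 2 * s2_I (|c.u i a| < 1 - x) +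
    2 * s2_I (|c.u i b| < 1 - x) + 2 * (s2_I (1 - x ≤ c.u i a) * s2_I (c.u i b ≤ -1 + x)) +
    2 * (s2_I (c.u i a ≤ -1 + x) * s2_I (1 - x ≤ c.u i b)) with hF
  have key : ∀ a ∈ T, ∀ b ∈ T, s2_I (a ≠ b) * (1 / (4 * D)) ≤ ∑ i, c.w i * F i a b := by
    intro a ha b hb
    have ha' := (Finset.mem_filter.1 ha).1
    have hb' := (Finset.mem_filter.1 hb).1
    by_cases hab : a = b
    · rw [s2_I, if_neg (not_not.2 hab), zero_mul]
      refine Finset.sum_nonneg fun i _ => mul_nonneg (c.w_nonneg i) ?_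
      have := s2_I0
      simp only [hF]
      exact add_nonneg (add_nonneg (add_nonneg (mul_nonneg zero_le_two (this _))
        (mul_nonneg zero_le_two (this _))) (mul_nonneg zero_le_two (mul_nonneg (this _) (this _))))
        (mul_nonneg zero_le_two (mul_nonneg (this _) (this _)))
    rw [s2_I1 hab, one_mul]
    obtain ⟨j, e1, e2⟩ := c.sep a ha' b hb' hab
    have h1 := hLR D c (a - b) j (by omega)
    rw [map_sub, e1, e2] at h1
    have h2 : ∑ i, c.w i * |c.u i (a - b)| ≤ ∑ i, c.w i * (x + F i a b) :=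
      Finset.sum_le_sum fun i _ => mul_le_mul_of_nonneg_left (by
        rw [map_sub]; exact s2_pt hx (c.abs_A ha' i) (c.abs_A hb' i)) (c.w_nonneg i)
    simp only [mul_add (c.w _) x, Finset.sum_add_distrib, ← Finset.sum_mul, c.sum_w, one_mul] at h2
    have h3 : 1 / (3 * D) ≤ ∑ i, c.w i * |c.u i (a - b)| := by
      rw [div_le_iff₀ (by positivity)]
      linarith
    have h4 : (1 : ℝ) / (3 * D) = 1 / (4 * D) + 1 / (12 * D) := by
      field_simp
      norm_num
    linarith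
  have h1 := Finset.sum_le_sum fun a ha => Finset.sum_le_sum (key a ha)
  rw [s2_off] at h1
  have h2 : ∑ a ∈ T, ∑ b ∈ T, ∑ i, c.w i * F i a b ≤
      2 ^ D * t * 2 ^ D * ∑ i, c.w i * (4 * c.bad x i + 4 * min (P i) (M i)) := by
    rw [Finset.sum_congr rfl fun a _ => Finset.sum_comm, Finset.sum_comm, Finset.mul_sum]
    refine Finset.sum_le_sum fun i _ => ?_
    simp only [← Finset.mul_sum]
    rw [mul_left_comm]
    refine mul_le_mul_of_nonneg_left ?_ (c.w_nonneg i)
    simp only [hF]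
    rw [s2_dbl T (fun a => s2_I (|c.u i a| < 1 - x)) (fun a => s2_I (1 - x ≤ c.u i a))
      fun a => s2_I (c.u i a ≤ -1 + x), hn, hT, s2_sum, s2_sum, s2_sum]
    have b1 : c.cnt (fun a => c.u c.it a = 1 ∧ |c.u i a| < 1 - x) ≤ c.bad x i :=
      s2_mono c fun _ h => h.2
    have b2 : P i ≤ t := s2_mono c fun _ h => h.1
    have b3 : M i ≤ t := s2_mono c fun _ h => h.1
    have b4 : P i * M i ≤ t * min (P i) (M i) := by
      rcases le_total (P i) (M i) with h | h
      · rw [min_eq_left h, mul_comm]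
        exact mul_le_mul_of_nonneg_right b3 (c.cnt_nonneg _)
      · rw [min_eq_right h]
        exact mul_le_mul_of_nonneg_right b2 (c.cnt_nonneg _)
    have b5 := mul_le_mul_of_nonneg_left b1 (by linarith : 0 ≤ t)
    change 4 * (2 ^ D * t) * (2 ^ D * _) + 4 * (2 ^ D * P i * (2 ^ D * M i)) ≤ _
    have b6 : (0 : ℝ) ≤ 2 ^ D * 2 ^ D := by positivity
    nlinarith [mul_le_mul_of_nonneg_left b4 b6, mul_le_mul_of_nonneg_left b5 b6]
  have h3 : 1 / (16 * D) ≤ ∑ i, c.w i * (4 * c.bad x i + 4 * min (P i) (M i)) := by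
    have hpos : (0 : ℝ) < 2 ^ D * t * 2 ^ D := by positivity
    refine le_of_mul_le_mul_left (le_trans ?_ (h1.trans h2)) hpos
    rw [hn]
    have e : (1 : ℝ) / (16 * D) = 1 / 4 * (1 / (4 * D)) := by
      field_simp
      norm_num
    rw [e, ← mul_assoc]
    refine mul_le_mul_of_nonneg_right ?_ (by positivity)
    rw [mul_assoc]
    refine mul_le_mul_of_nonneg_left ?_ (by positivity)
    nlinarith
  have h4 : 1 / (32 * D) ≤ ∑ i, c.w i * (4 * min (P i) (M i) - l * c.bad x i) := by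
    have e : ∑ i, c.w i * (4 * min (P i) (M i) - l * c.bad x i) =
        ∑ i, c.w i * (4 * c.bad x i + 4 * min (P i) (M i)) - (4 + l) * ∑ i, c.w i * c.bad x i := by
      rw [Finset.mul_sum, ← Finset.sum_sub_distrib]
      exact Finset.sum_congr rfl fun i _ => by ring
    have e2 : (1 : ℝ) / (16 * D) = 1 / (32 * D) + 1 / (32 * D) := by
      field_simp
      norm_num
    have := mul_le_mul_of_nonneg_left hd (by linarith : 0 ≤ 4 + l)
    linarith
  obtain ⟨o, -, ho⟩ := Finset.exists_max_image Finset.univ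
    (fun i => 4 * min (P i) (M i) - l * c.bad x i) Finset.univ_nonempty
  have h5 : 1 / (32 * D) ≤ 4 * min (P o) (M o) - l * c.bad x o := by
    refine h4.trans ((Finset.sum_le_sum fun i hi =>
      mul_le_mul_of_nonneg_left (ho i hi) (c.w_nonneg i)).trans_eq ?_)
    rw [← Finset.sum_mul, c.sum_w, one_mul]
  have h6 : 0 ≤ l * c.bad x o := mul_nonneg hl.le (c.cnt_nonneg _)
  have h7 : (1 : ℝ) / (32 * D) = 4 * (1 / (128 * D)) := by
    field_simp
    norm_num
  have h8 : (0 : ℝ) < 1 / (128 * D) := by positivity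
  have h9 : P o ≤ 1 := s2_one c _
  have h10 : M o ≤ c.cnt fun a => c.u c.it a = -1 ∧ 1 - x ≤ c.u o a := by
    rw [← c.cnt_neg fun a => c.u c.it a = -1 ∧ 1 - x ≤ c.u o a]
    refine s2_mono c fun a ha => ?_
    rw [map_neg, map_neg, ha.1]
    exact ⟨rfl, by linarith [ha.2]⟩
  have m1 := min_le_left (P o) (M o)
  have m2 := min_le_right (P o) (M o)
  refine ⟨o, ?_, by change _ ≤ P o; linarith, by linarith⟩
  rw [le_div_iff₀ hl]
  linarith

end Pool.Agent.P.MP_61d55c_co.SG
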