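import Pool.Agent.P.MP_61d55c_co.SG.Iface

/-! Nearly parallel partner differences on a large set are impossible. -/

set_option autoImplicit false

namespace Pool.Agent.P.MP_61d55c_co.SG

open MeasureTheory Set
open scoped Classical

theorem s4_R {D : ℕ} (c : Cfg D) (β : V D →L[ℝ] ℝ) :
    ∃ R : ℝ, 0 ≤ R ∧ (∀ y ∈ c.K, |β y| ≤ R) ∧ (0 < R → ∃ z ∈ c.K, R / 2 ≤ β z) := by
  obtain ⟨ρ, hρ⟩ := c.bdd
  have h0 : (0 : V D) ∈ c.K := fun i => by simp
  have hb : BddAbove (β '' c.K) := ⟨‖β‖ * ρ, by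
    rintro _ ⟨y, hy, rfl⟩
    exact (le_abs_self _).trans ((β.le_opNorm y).trans
      (mul_le_mul_of_nonneg_left (hρ y hy) (norm_nonneg _)))⟩
  have hl : ∀ y ∈ c.K, β y ≤ sSup (β '' c.K) := fun y hy => le_csSup hb ⟨y, hy, rfl⟩
  refine ⟨sSup (β '' c.K), by simpa using hl 0 h0, fun y hy => ?_, fun h => ?_⟩
  · have := hl _ (c.neg_K hy)
    rw [map_neg] at this
    exact abs_le.2 ⟨by linarith, hl y hy⟩
  · obtain ⟨_, ⟨z, hz, rfl⟩, h2⟩ := exists_lt_of_lt_csSup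
      (Nonempty.image β ⟨0, h0⟩) (half_lt_self h)
    exact ⟨z, hz, h2.le⟩

theorem s4_sm {D : ℕ} (c : Cfg D) (β : V D →L[ℝ] ℝ) {R κ : ℝ} (hκ : 0 < κ)
    (hR : ∀ y ∈ c.K, |β y| ≤ R) (h : V D) (hh : ∀ j, c.u j h ≤ 2 * κ) : |β h| ≤ 4 * κ * R := by
  have h1 : (4 * κ)⁻¹ • h ∈ c.K := fun j => by
    rw [map_smul, smul_eq_mul, inv_mul_lt_iff₀ (by positivity)]
    linarith [hh j]
  have := hR _ h1
  rwa [map_smul, smul_eq_mul, abs_mul, abs_of_pos (by positivity),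
    inv_mul_le_iff₀ (by positivity)] at this

theorem p_S4 (hLA : S_LA) : S_S4 := by
  intro D c x κ n o J p hD hn hκ hκn hx hJ hp hg ⟨at', hat, et⟩ ⟨ab, hab, eb⟩ hc
  have h4 : (1 : ℝ) ≤ 4 ^ n := one_le_pow₀ (by norm_num)
  have hκ4 : 100 * 4 ^ n * κ ≤ 1 := by
    rwa [le_div_iff₀ (by positivity), mul_comm] at hκn
  have hκ1 : κ ≤ 1 / 100 := by nlinarith
  have hi : ∀ a ∈ J, ∃ i, c.u i a = 1 ∧ c.u i (p a) = -1 ∧
      ∀ z ∈ c.A, c.u i z = 1 → z = a ∨ z = -p a := fun a ha => by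
    obtain ⟨e1, e2, e3⟩ := hp a ha
    refine c.strict a (hJ ha) _ e2 (fun e => ?_) ?_
    · rw [← e] at e3
      linarith
    · have t1 := hg a ha ab hab c.it
      have t2 := hg at' hat a ha c.it
      have t3 := abs_le.1 (c.abs_A (hp ab hab).2.1 c.it)
      have t4 := abs_le.1 (c.abs_A (hp at' hat).2.1 c.it)
      simp only [map_sub] at t1 t2
      rcases c.top a (hJ ha) with f | f <;> rcases c.top _ e2 with f' | f' <;> linarith
  choose! i i1 i2 i3 using hi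
  obtain ⟨a0, h0, m0⟩ := J.exists_min_image (fun a => ∑ b ∈ J, |c.u (i a) (b + p b)|) ⟨_, hat⟩
  obtain ⟨a1, h1, m1⟩ := J.exists_min_image (fun a => c.u (i a0) (a - p a)) ⟨_, hat⟩
  have hA : ∀ b ∈ J, ∀ j, |c.u j b| ≤ 1 ∧ |c.u j (p b)| ≤ 1 := fun b hb j =>
    ⟨c.abs_A (hJ hb) j, c.abs_A (hp b hb).2.1 j⟩
  obtain ⟨al, hal⟩ : ∃ al, al = c.u (i a1) (a0 - p a0) / 2 := ⟨_, rfl⟩
  have al0 : 0 ≤ al := by
    have := hg a1 h1 a0 h0 (i a1)
    simp only [map_sub] at this hal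
    linarith [i1 a1 h1, i2 a1 h1]
  have al1 : al ≤ 1 := by
    rw [map_sub] at hal
    linarith [abs_le.1 (hA a0 h0 (i a1)).1, abs_le.1 (hA a0 h0 (i a1)).2]
  obtain ⟨be, hbe⟩ : ∃ be : V D →L[ℝ] ℝ, ∀ y, be y = c.u (i a1) y - al * c.u (i a0) y :=
    ⟨c.u (i a1) - al • c.u (i a0), fun y => by simp⟩
  have b0 : be (a0 - p a0) = 0 := by
    rw [hbe, map_sub (c.u (i a0)), i1 a0 h0, i2 a0 h0, hal]
    ring
  obtain ⟨R, R0, hR, hz⟩ := s4_R c be
  have k1 : ∀ b ∈ J, 2 - c.u (i a1) (b - p b) ≤ 4 * κ * R := fun b hb => by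
    have e := (abs_le.1 (s4_sm c be hκ hR _ (hg a1 h1 b hb))).2
    have e2 := mul_le_mul_of_nonneg_left (m1 b hb) al0
    rw [hbe, map_sub (c.u (i a1)), map_sub (c.u (i a0)), map_sub (c.u (i a1)) a1, i1 a1 h1,
      i2 a1 h1] at e
    linarith
  rcases R0.eq_or_lt with rfl | R0
  · have hs : J ⊆ {a1, -p a1} := fun b hb => by
      have e := k1 b hb
      rw [map_sub] at e
      simpa using i3 a1 h1 b (hJ hb)
        (by linarith [abs_le.1 (hA b hb (i a1)).1, abs_le.1 (hA b hb (i a1)).2])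
    have e1 : (J.card : ℝ) ≤ 2 := by
      exact_mod_cast (Finset.card_le_card hs).trans Finset.card_le_two
    have e2 : (2 : ℝ) ^ 3 ≤ 2 ^ D := pow_le_pow_right₀ (by norm_num) hD
    linarith
  have k2 : ∑ b ∈ J, |c.u (i a1) (b + p b)| ≤ J.card * (4 * κ * R) := by
    rw [← nsmul_eq_mul]
    refine Finset.sum_le_card_nsmul _ _ _ fun b hb => ?_
    have e := k1 b hb
    rw [map_sub] at e
    rw [map_add]
    exact abs_le.2 ⟨by linarith [abs_le.1 (hA b hb (i a1)).2],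
      by linarith [abs_le.1 (hA b hb (i a1)).1]⟩
  have k3 : ∑ b ∈ J, |be (b + p b)| ≤ J.card * (8 * κ * R) := by
    have e : ∑ b ∈ J, |be (b + p b)| ≤
        ∑ b ∈ J, |c.u (i a1) (b + p b)| + ∑ b ∈ J, |c.u (i a0) (b + p b)| := by
      rw [← Finset.sum_add_distrib]
      refine Finset.sum_le_sum fun b _ => ?_
      rw [hbe]
      refine (abs_sub _ _).trans (add_le_add le_rfl ?_)
      rw [abs_mul, abs_of_nonneg al0]
      exact mul_le_of_le_one_left (abs_nonneg _) al1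
    linarith [m0 a1 h1]
  have k4 := hLA D c be R n (by omega) R0 hR (hz R0) hn
  rw [Cfg.cnt, div_lt_iff₀ (by positivity)] at k4
  obtain ⟨S, hS⟩ : ∃ S, S = J.filter fun a => |be a| ≤ R / 4 ^ n := ⟨_, rfl⟩
  obtain ⟨L, hL⟩ : ∃ L, L = J.filter fun a => ¬ |be a| ≤ R / 4 ^ n := ⟨_, rfl⟩
  have k5 : (S.card : ℝ) + L.card = J.card := by
    rw [hS, hL]
    exact_mod_cast Finset.card_filter_add_card_filter_not _
  have k6 : S.card + S.card ≤ (c.A.filter fun a => |be a| ≤ R / 4 ^ n).card := by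
    have e : (S.image fun a => -a).card = S.card := Finset.card_image_of_injective _ neg_injective
    have hd : Disjoint S (S.image fun a => -a) := Finset.disjoint_left.2 fun a ha hb' => by
      obtain ⟨b, hb, rfl⟩ := Finset.mem_image.1 hb'
      clear hb'
      rw [hS] at ha hb
      have f1 := (hp _ (Finset.mem_filter.1 ha).1).1
      have f2 := (hp _ (Finset.mem_filter.1 hb).1).1
      rw [map_neg] at f1
      linarith
    nth_rw 2 [← e]
    rw [← Finset.card_union_of_disjoint hd]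
    refine Finset.card_le_card (Finset.union_subset (fun a ha => ?_) fun a ha => ?_)
    · rw [hS] at ha
      exact Finset.mem_filter.2 ⟨hJ (Finset.mem_filter.1 ha).1, (Finset.mem_filter.1 ha).2⟩
    · obtain ⟨b, hb, rfl⟩ := Finset.mem_image.1 ha
      rw [hS] at hb
      exact Finset.mem_filter.2 ⟨c.sym _ (hJ (Finset.mem_filter.1 hb).1),
        by simpa using (Finset.mem_filter.1 hb).2⟩
  have k7 : L.card * (196 * κ * R) ≤ ∑ b ∈ J, |be (b + p b)| := by
    refine le_trans ?_ (Finset.sum_le_sum_of_subset_of_nonneg (hL ▸ Finset.filter_subset _ J)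
      fun _ _ _ => abs_nonneg _)
    rw [← nsmul_eq_mul]
    refine Finset.card_nsmul_le_sum _ _ _ fun b hb => ?_
    rw [hL] at hb
    obtain ⟨hb, f⟩ := Finset.mem_filter.1 hb
    have e := abs_le.1 (s4_sm c be hκ hR _ (hg b hb a0 h0))
    have f2 : 100 * κ * R ≤ R / 4 ^ n := by
      rw [le_div_iff₀ (by positivity)]
      nlinarith
    rw [map_sub, b0, map_sub] at e
    rw [map_add]
    rcases lt_abs.1 (not_le.1 f) with f | f
    · exact le_abs.2 (Or.inl (by linarith))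
    · exact le_abs.2 (Or.inr (by linarith))
  have k8 : (S.card : ℝ) + S.card ≤ (c.A.filter fun a => |be a| ≤ R / 4 ^ n).card := by
    exact_mod_cast k6
  have k9 : (L.card : ℝ) * 196 ≤ J.card * 8 :=
    le_of_mul_le_mul_right (a := κ * R) (by linarith) (by positivity)
  have k10 : (0 : ℝ) < 2 ^ D := by positivity
  linarith

end Pool.Agent.P.MP_61d55c_co.SG
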